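import Pool.Agent.V11194.LensRows

set_option autoImplicit false

/-! # Two lens spaces with q = 25, n = 19 -/

namespace Pool.Agent.V11194

open Polynomial Pool.Agent.Helper477.Sph

/-- the first tuple -/
def lA : List (ZMod 25) := [1, 1, 1, 2, 2, 3, 3, 4, 4, 4, 6, 6, 7, 8, 9, 9, 9, 11, 12]
/-- the second tuple -/
def lB : List (ZMod 25) := [1, 1, 1, 2, 2, 3, 3, 4, 4, 4, 6, 6, 7, 7, 9, 9, 11, 11, 12]
/-- representatives of the units up to sign -/
def lT : List (ZMod 25) := [1, 2, 3, 4, 6, 7, 8, 9, 11, 12]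

/-- the first tuple -/
def sA : Fin 19 → ZMod 25 := ![1, 1, 1, 2, 2, 3, 3, 4, 4, 4, 6, 6, 7, 8, 9, 9, 9, 11, 12]
/-- the second tuple -/
def sB : Fin 19 → ZMod 25 := ![1, 1, 1, 2, 2, 3, 3, 4, 4, 4, 6, 6, 7, 7, 9, 9, 11, 11, 12]

theorem ofFn_sA : List.ofFn sA = lA := by decide
theorem ofFn_sB : List.ofFn sB = lB := by decide

theorem prod_sA (f : ZMod 25 → ℂ[X]) : ∏ j, f (sA j) = (lA.map f).prod := by
  rw [← ofFn_sA, List.map_ofFn, List.prod_ofFn]; rfl

theorem prod_sB (f : ZMod 25 → ℂ[X]) : ∏ j, f (sB j) = (lB.map f).prod := by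
  rw [← ofFn_sB, List.map_ofFn, List.prod_ofFn]; rfl

/-- class representative up to sign -/
def cl (a : ZMod 25) : ZMod 25 := if a.val ≤ 12 then a else -a

theorem QQ_cl (a : ZMod 25) : QQ (cl a) = QQ a := by
  unfold cl
  split_ifs
  · rfl
  · exact QQ_neg a

theorem map_QQ_eq (l : ZMod 25) (L : List (ZMod 25)) :
    L.map (fun c => QQ (l * c)) = (L.map (fun c => cl (l * c))).map QQ := by
  rw [List.map_map]
  apply List.map_congr_left
  intro c _
  exact (QQ_cl _).symm

/-- units of `ZMod 25`, decidably -/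
def un (l : ZMod 25) : Bool := decide (l.val % 5 ≠ 0)

theorem perm_T : ∀ l : ZMod 25, un l = true → (lT.map (fun c => cl (l * c))).Perm lT := by
  decide +kernel

theorem perm_non : ∀ l : ZMod 25, un l = false →
    (lA.map (fun c => cl (l * c))).Perm (lB.map (fun c => cl (l * c))) := by
  decide +kernel

/-- `Φ` -/
noncomputable def Phi : ℂ[X] := (lT.map QQ).prod

theorem prod_T {l : ZMod 25} (h : un l = true) : (lT.map (fun c => QQ (l * c))).prod = Phi := by
  rw [map_QQ_eq, Phi]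
  exact ((perm_T l h).map QQ).prod_eq

theorem prod_non {l : ZMod 25} (h : un l = false) :
    (lA.map (fun c => QQ (l * c))).prod = (lB.map (fun c => QQ (l * c))).prod := by
  rw [map_QQ_eq, map_QQ_eq]
  exact ((perm_non l h).map QQ).prod_eq

theorem perm_A : (lA ++ cA.map (Nat.cast : ℕ → ZMod 25)).Perm (lT ++ (lT ++ lT)) := by
  decide +kernel

theorem perm_B : (lB ++ cB.map (Nat.cast : ℕ → ZMod 25)).Perm (lT ++ (lT ++ lT)) := by
  decide +kernel

theorem QQ_W (l : ZMod 25) (c : ℕ) (hc : c ≤ 25) :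
    QQ (l * (c : ZMod 25)) = W ((ZMod.stdAddChar (N := 25)) l) c := by
  unfold QQ W
  have h1 : (ZMod.stdAddChar (N := 25)) (l * (c : ZMod 25)) =
      (ZMod.stdAddChar (N := 25)) l ^ c := by
    rw [← AddChar.map_nsmul_eq_pow, nsmul_eq_mul, mul_comm]
  have h2 : (ZMod.stdAddChar (N := 25)) (-(l * (c : ZMod 25))) =
      (ZMod.stdAddChar (N := 25)) l ^ (25 - c) := by
    rw [← AddChar.map_nsmul_eq_pow, nsmul_eq_mul, Nat.cast_sub hc]
    congr 1
    have : ((25 : ℕ) : ZMod 25) = 0 := by decide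
    rw [this]; ring
  rw [h1, h2]

theorem std_pow (l : ZMod 25) : (ZMod.stdAddChar (N := 25)) l ^ 25 = 1 := by
  rw [← AddChar.map_nsmul_eq_pow, nsmul_eq_mul]
  have : ((25 : ℕ) : ZMod 25) = 0 := by decide
  rw [this, zero_mul, AddChar.map_zero_eq_one]

theorem comp_eq (l : ZMod 25) (L : List ℕ) (hL : ∀ c ∈ L, c ≤ 25) :
    ((L.map (Nat.cast : ℕ → ZMod 25)).map (fun c => QQ (l * c))).prod =
      evP ((ZMod.stdAddChar (N := 25)) l) (prodW L) := by
  rw [evP_prodW (std_pow l), List.map_map]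
  congr 1
  apply List.map_congr_left
  intro c hc
  exact QQ_W l c (hL c hc)

theorem cube {l : ZMod 25} (h : un l = true) (L : List (ZMod 25)) (L' : List ℕ)
    (hL' : ∀ c ∈ L', c ≤ 25)
    (hp : (L ++ L'.map (Nat.cast : ℕ → ZMod 25)).Perm (lT ++ (lT ++ lT))) :
    (L.map (fun c => QQ (l * c))).prod * evP ((ZMod.stdAddChar (N := 25)) l) (prodW L') =
      Phi ^ 3 := by
  rw [← comp_eq l L' hL', ← List.prod_append, ← List.map_append,
    (hp.map (fun c => QQ (l * c))).prod_eq, List.map_append, List.map_append, List.prod_append,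
    List.prod_append, prod_T h]
  ring

/-- The set of units. -/
def U : Finset (ZMod 25) := Finset.univ.filter (fun l => un l = true)

theorem sum_units (k : ℕ) :
    ∑ l ∈ U, (ZMod.stdAddChar (N := 25)) l ^ k = ((ram k : ℤ) : ℂ) := by
  have hpow : ∀ l : ZMod 25, (ZMod.stdAddChar (N := 25)) l ^ k =
      (ZMod.stdAddChar (N := 25)) (l * (k : ZMod 25)) := by
    intro l
    rw [← AddChar.map_nsmul_eq_pow, nsmul_eq_mul, mul_comm]
  have hall : ∑ l : ZMod 25, (ZMod.stdAddChar (N := 25)) l ^ k =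
      if (k : ZMod 25) = 0 then 25 else 0 := by
    simp only [hpow]
    have := AddChar.sum_mulShift (k : ZMod 25) (ZMod.isPrimitive_stdAddChar 25)
    rw [this]
    simp
  have hsplit : ∑ l : ZMod 25, (ZMod.stdAddChar (N := 25)) l ^ k =
      ∑ l ∈ U, (ZMod.stdAddChar (N := 25)) l ^ k +
      ∑ l ∈ ({0, 5, 10, 15, 20} : Finset (ZMod 25)), (ZMod.stdAddChar (N := 25)) l ^ k := by
    rw [← Finset.sum_union (by decide +kernel)]
    have : (Finset.univ : Finset (ZMod 25)) = U ∪ {0, 5, 10, 15, 20} := by decide +kernel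
    rw [← this]
  set η : ℂ := (ZMod.stdAddChar (N := 25)) (5 : ZMod 25) ^ k with hη
  have hη5 : η ^ 5 = 1 := by
    rw [hη, ← pow_mul, mul_comm, pow_mul]
    have : (ZMod.stdAddChar (N := 25)) (5 : ZMod 25) ^ 5 = 1 := by
      rw [← AddChar.map_nsmul_eq_pow]
      have : (5 : ℕ) • (5 : ZMod 25) = 0 := by decide
      rw [this, AddChar.map_zero_eq_one]
    rw [this, one_pow]
  have hnon : ∑ l ∈ ({0, 5, 10, 15, 20} : Finset (ZMod 25)), (ZMod.stdAddChar (N := 25)) l ^ k =
      1 + η + η ^ 2 + η ^ 3 + η ^ 4 := by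
    rw [Finset.sum_insert (by decide), Finset.sum_insert (by decide),
      Finset.sum_insert (by decide), Finset.sum_insert (by decide), Finset.sum_singleton]
    have e0 : (ZMod.stdAddChar (N := 25)) (0 : ZMod 25) = 1 := AddChar.map_zero_eq_one _
    have e2 : (ZMod.stdAddChar (N := 25)) (10 : ZMod 25) =
        (ZMod.stdAddChar (N := 25)) (5 : ZMod 25) ^ 2 := by
      rw [← AddChar.map_nsmul_eq_pow]; congr 1
    have e3 : (ZMod.stdAddChar (N := 25)) (15 : ZMod 25) =
        (ZMod.stdAddChar (N := 25)) (5 : ZMod 25) ^ 3 := by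
      rw [← AddChar.map_nsmul_eq_pow]; congr 1
    have e4 : (ZMod.stdAddChar (N := 25)) (20 : ZMod 25) =
        (ZMod.stdAddChar (N := 25)) (5 : ZMod 25) ^ 4 := by
      rw [← AddChar.map_nsmul_eq_pow]; congr 1
    rw [e0, e2, e3, e4, hη]
    ring
  have hk0 : (k : ZMod 25) = 0 ↔ 25 ∣ k := ZMod.natCast_eq_zero_iff k 25
  have hη1 : η = 1 ↔ 5 ∣ k := by
    rw [hη, hpow, ← AddChar.map_zero_eq_one (ZMod.stdAddChar (N := 25)),
      ZMod.injective_stdAddChar.eq_iff]
    have : (5 : ZMod 25) * (k : ZMod 25) = ((5 * k : ℕ) : ZMod 25) := by push_cast; ring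
    rw [this, ZMod.natCast_eq_zero_iff]
    constructor
    · intro h; omega
    · intro h; omega
  rw [hsplit, hnon] at hall
  by_cases h25 : 25 ∣ k
  · have h5 : 5 ∣ k := Dvd.dvd.trans (by norm_num) h25
    rw [if_pos (hk0.2 h25), hη1.2 h5] at hall
    simp only [ram, if_pos h25]
    push_cast
    linear_combination hall
  · rw [if_neg (fun h => h25 (hk0.1 h))] at hall
    by_cases h5 : 5 ∣ k
    · rw [hη1.2 h5] at hall
      simp only [ram, if_neg h25, if_pos h5]
      push_cast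
      linear_combination hall
    · have hne : η - 1 ≠ 0 := fun h => h5 (hη1.1 (sub_eq_zero.1 h))
      have h0 : 1 + η + η ^ 2 + η ^ 3 + η ^ 4 = 0 := by
        apply mul_left_cancel₀ hne
        linear_combination hη5
      rw [h0] at hall
      simp only [ram, if_neg h25, if_neg h5]
      push_cast
      linear_combination hall

theorem sum_comp : ∑ l ∈ U, evP ((ZMod.stdAddChar (N := 25)) l) (prodW cA) =
    ∑ l ∈ U, evP ((ZMod.stdAddChar (N := 25)) l) (prodW cB) := by
  rw [sum_evP _ _ sum_units, sum_evP _ _ sum_units, key_comp]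

theorem Phi_ne : Phi ≠ 0 := by
  intro h
  have h1 := congrArg (Polynomial.eval 0) h
  rw [Phi, Polynomial.eval_list_prod] at h1
  simp [lT, QQ] at h1

theorem unit_sA : ∀ j, IsUnit (sA j) := by decide +kernel
theorem unit_sB : ∀ j, IsUnit (sB j) := by decide +kernel

theorem tau_inv (s : Fin 19 → ZMod 25) (l : ZMod 25) : tau (cx (lg s ^ l.val).1) *
    ((∏ j, QQ (l * s j) : ℂ[X]) : PowerSeries ℂ) = 1 := by
  have h1 := tau_mul_charpolyRev (cx (lg s ^ l.val).1) 25 (by norm_num) (by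
    rw [← cx_pow]
    have h3 : (lg s ^ l.val) ^ 25 = 1 := by
      rw [← pow_mul, mul_comm l.val 25, pow_mul, lg_pow_q, one_pow]
    have h2 : (lg s ^ l.val).1 ^ 25 = ((lg s ^ l.val) ^ 25).1 := rfl
    rw [h2, h3]
    exact cx_one)
  rw [charpolyRev_lg, ZMod.natCast_zmod_val] at h1
  exact h1

theorem PhiP_ne : ((Phi ^ 3 : ℂ[X]) : PowerSeries ℂ) ≠ 0 := by
  rw [Ne, Polynomial.coe_eq_zero_iff]
  exact pow_ne_zero _ Phi_ne

theorem cA_le : ∀ c ∈ cA, c ≤ 25 := by decide
theorem cB_le : ∀ c ∈ cB, c ≤ 25 := by decide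

theorem mulA {l : ZMod 25} (hu : un l = true) :
    ((Phi ^ 3 : ℂ[X]) : PowerSeries ℂ) * tau (cx (lg sA ^ l.val).1) =
      ((evP ((ZMod.stdAddChar (N := 25)) l) (prodW cA) : ℂ[X]) : PowerSeries ℂ) := by
  have h1 := tau_inv sA l
  rw [prod_sA (fun c => QQ (l * c))] at h1
  rw [← cube hu lA cA cA_le perm_A, Polynomial.coe_mul]
  generalize tau (cx (lg sA ^ l.val).1) = t at h1 ⊢
  generalize ((List.map (fun c => QQ (l * c)) lA).prod : ℂ[X]) = u at h1 ⊢
  generalize evP ((ZMod.stdAddChar (N := 25)) l) (prodW cA) = v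
  linear_combination (v : PowerSeries ℂ) * h1

theorem mulB {l : ZMod 25} (hu : un l = true) :
    ((Phi ^ 3 : ℂ[X]) : PowerSeries ℂ) * tau (cx (lg sB ^ l.val).1) =
      ((evP ((ZMod.stdAddChar (N := 25)) l) (prodW cB) : ℂ[X]) : PowerSeries ℂ) := by
  have h1 := tau_inv sB l
  rw [prod_sB (fun c => QQ (l * c))] at h1
  rw [← cube hu lB cB cB_le perm_B, Polynomial.coe_mul]
  generalize tau (cx (lg sB ^ l.val).1) = t at h1 ⊢
  generalize ((List.map (fun c => QQ (l * c)) lB).prod : ℂ[X]) = u at h1 ⊢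
  generalize evP ((ZMod.stdAddChar (N := 25)) l) (prodW cB) = v
  linear_combination (v : PowerSeries ℂ) * h1

theorem tau_non {l : ZMod 25} (hu : un l = false) :
    tau (cx (lg sA ^ l.val).1) = tau (cx (lg sB ^ l.val).1) := by
  have h1 := tau_inv sA l
  have h2 := tau_inv sB l
  rw [prod_sA (fun c => QQ (l * c)), prod_non hu] at h1
  rw [prod_sB (fun c => QQ (l * c))] at h2
  generalize tau (cx (lg sA ^ l.val).1) = t at h1 ⊢
  generalize tau (cx (lg sB ^ l.val).1) = t' at h2 ⊢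
  generalize ((List.map (fun c => QQ (l * c)) lB).prod : ℂ[X]) = u at h1 h2
  linear_combination t' * h1 - t * h2

theorem sum_gen (f g : ZMod 25 → PowerSeries ℂ) (F G : ZMod 25 → ℂ[X])
    (h1 : ∀ l, un l = false → f l = g l)
    (hf : ∀ l, un l = true → ((Phi ^ 3 : ℂ[X]) : PowerSeries ℂ) * f l = (F l : PowerSeries ℂ))
    (hg : ∀ l, un l = true → ((Phi ^ 3 : ℂ[X]) : PowerSeries ℂ) * g l = (G l : PowerSeries ℂ))
    (hFG : ∑ l ∈ U, F l = ∑ l ∈ U, G l) : ∑ l, f l = ∑ l, g l := by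
  have hU : ∑ l ∈ U, f l = ∑ l ∈ U, g l := by
    apply mul_left_cancel₀ PhiP_ne
    have e1 : ((Phi ^ 3 : ℂ[X]) : PowerSeries ℂ) * ∑ l ∈ U, f l =
        ∑ l ∈ U, (F l : PowerSeries ℂ) := by
      rw [Finset.mul_sum]
      exact Finset.sum_congr rfl (fun l hl => hf l (Finset.mem_filter.1 hl).2)
    have e2 : ((Phi ^ 3 : ℂ[X]) : PowerSeries ℂ) * ∑ l ∈ U, g l =
        ∑ l ∈ U, (G l : PowerSeries ℂ) := by
      rw [Finset.mul_sum]
      exact Finset.sum_congr rfl (fun l hl => hg l (Finset.mem_filter.1 hl).2)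
    rw [e1, e2]
    have := congrArg (Polynomial.coeToPowerSeries.ringHom (R := ℂ)) hFG
    rw [map_sum, map_sum] at this
    exact this
  have hN : ∑ l ∈ Finset.univ.filter (fun l : ZMod 25 => ¬ un l = true), f l =
      ∑ l ∈ Finset.univ.filter (fun l : ZMod 25 => ¬ un l = true), g l := by
    apply Finset.sum_congr rfl
    intro l hl
    apply h1
    have := (Finset.mem_filter.1 hl).2
    simpa using this
  rw [← Finset.sum_filter_add_sum_filter_not Finset.univ (fun l : ZMod 25 => un l = true) f,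
    ← Finset.sum_filter_add_sum_filter_not Finset.univ (fun l : ZMod 25 => un l = true) g]
  exact congrArg₂ (· + ·) hU hN

theorem sum_tau : ∑ l : ZMod 25, tau (cx (lg sA ^ l.val).1) =
    ∑ l : ZMod 25, tau (cx (lg sB ^ l.val).1) :=
  sum_gen (fun l => tau (cx (lg sA ^ l.val).1)) (fun l => tau (cx (lg sB ^ l.val).1))
    (fun l => evP ((ZMod.stdAddChar (N := 25)) l) (prodW cA))
    (fun l => evP ((ZMod.stdAddChar (N := 25)) l) (prodW cB))
    (fun _ h => tau_non h) (fun _ h => mulA h) (fun _ h => mulB h) sum_comp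

theorem card_nsmul_hilb (s : Fin 19 → ZMod 25) (hs : ∀ j, IsUnit (s j)) :
    PowerSeries.C ((25 : ℕ) : ℂ) * hilb (LG s) = ∑ l : ZMod 25, tau (cx (lg s ^ l.val).1) := by
  have hf := finite_LG (s := s) (by norm_num) hs
  have hft : Fintype (LG s) := Fintype.ofFinite _
  have hc : Fintype.card (LG s) = 25 := by
    rw [← Nat.card_eq_fintype_card, card_LG (by norm_num) hs]
  have hA := molien_series (LG s)
  rw [hc, sum_LG (by norm_num) hs (fun g => tau (cx g.1))] at hA
  exact hA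

theorem hilb_eq : hilb (LG sA) = hilb (LG sB) := by
  have hC : (PowerSeries.C ((25 : ℕ) : ℂ)) ≠ (0 : PowerSeries ℂ) := by
    intro h
    have := congrArg (PowerSeries.coeff 0) h
    simp at this
  apply mul_left_cancel₀ hC
  rw [card_nsmul_hilb sA unit_sA, card_nsmul_hilb sB unit_sB, sum_tau]

end Pool.Agent.V11194
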