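import Pool.Agent.V11194.Cheb

set_option autoImplicit false

/-! # Iteration of the corrugations -/

open Real Set Filter Topology

namespace Pool.Agent.V11194.Cheb

lemma hasFDeriv_swap {f : ℝ × ℝ → ℂ} (hf : Differentiable ℝ f) (x : ℝ × ℝ) :
    HasFDerivAt (fun y : ℝ × ℝ => f y.swap) ((fderiv ℝ f x.swap).comp
      ((ContinuousLinearMap.snd ℝ ℝ ℝ).prod (ContinuousLinearMap.fst ℝ ℝ ℝ))) x := by
  have h1 : HasFDerivAt (fun y : ℝ × ℝ => (y.2, y.1))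
      ((ContinuousLinearMap.snd ℝ ℝ ℝ).prod (ContinuousLinearMap.fst ℝ ℝ ℝ)) x :=
    hasFDerivAt_snd.prodMk hasFDerivAt_fst
  exact (hf x.swap).hasFDerivAt.comp x h1

lemma du_swap {f : ℝ × ℝ → ℂ} (hf : Differentiable ℝ f) (x : ℝ × ℝ) :
    du (fun y => f y.swap) x = dv f x.swap := by
  unfold du dv
  rw [(hasFDeriv_swap hf x).fderiv]
  simp

lemma dv_swap {f : ℝ × ℝ → ℂ} (hf : Differentiable ℝ f) (x : ℝ × ℝ) :
    dv (fun y => f y.swap) x = du f x.swap := by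
  unfold du dv
  rw [(hasFDeriv_swap hf x).fderiv]
  simp

lemma contDiff_swap {f : ℝ × ℝ → ℂ} {n : WithTop ℕ∞} (hf : ContDiff ℝ n f) :
    ContDiff ℝ n (fun y : ℝ × ℝ => f y.swap) :=
  hf.comp (contDiff_snd.prodMk contDiff_fst)

lemma per_swap {T : ℝ} {f : ℝ × ℝ → ℂ} (hf : Differentiable ℝ f) (hper : Per T (fderiv ℝ f)) :
    Per T (fderiv ℝ (fun y => f y.swap)) := by
  constructor
  · intro x
    rw [(hasFDeriv_swap hf _).fderiv, (hasFDeriv_swap hf _).fderiv]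
    have e : (x + (T, 0)).swap = x.swap + (0, T) := by
      ext <;> simp
    rw [e, hper.2]
  · intro x
    rw [(hasFDeriv_swap hf _).fderiv, (hasFDeriv_swap hf _).fderiv]
    have e : (x + (0, T)).swap = x.swap + (T, 0) := by
      ext <;> simp
    rw [e, hper.1]

/-- One corrugation in the direction of `v`. -/
lemma step' {T : ℝ} {m : ℤ} (hT : T = 2 * π * m) (hT0 : 0 < T) {f : ℝ × ℝ → ℂ}
    (hf : ContDiff ℝ (⊤ : ℕ∞) f) (hper : Per T (fderiv ℝ f)) {δ : ℝ} (hδ : δ ≤ 1 / 9)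
    (hu : ∀ x, 0 < 1 - ‖dv f x‖ ^ 2 ∧ 1 - ‖dv f x‖ ^ 2 ≤ δ) {ε : ℝ} (hε : 0 < ε) :
    ∃ F : ℝ × ℝ → ℂ, ContDiff ℝ (⊤ : ℕ∞) F ∧ Per T (fderiv ℝ F) ∧ F 0 = f 0 ∧
      (∀ x, 0 < 1 - ‖dv F x‖ ^ 2 ∧ 1 - ‖dv F x‖ ^ 2 ≤ 2 / 3 * δ) ∧
      (∀ x, ‖dv F x - dv f x‖ ≤ 4 / 3 * √δ) ∧ ∀ x, ‖du F x - du f x‖ ≤ ε := by
  have df : Differentiable ℝ f := hf.differentiable (by simp)
  obtain ⟨F, h1, h2, h3, h4, h5, h6⟩ := step hT hT0 (contDiff_swap hf) (per_swap df hper) hδ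
    (fun x => by rw [du_swap df]; exact hu _) hε
  have dF : Differentiable ℝ F := h1.differentiable (by simp)
  refine ⟨fun y => F y.swap, contDiff_swap h1, per_swap dF h2, ?_, ?_, ?_, ?_⟩
  · simpa using h3
  · intro x
    rw [dv_swap dF]
    exact h4 _
  · intro x
    have := h5 x.swap
    rw [du_swap df, Prod.swap_swap] at this
    rwa [dv_swap dF]
  · intro x
    have := h6 x.swap
    rw [dv_swap df, Prod.swap_swap] at this
    rwa [du_swap dF]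

/-- The state after some steps. -/
structure St (T δ : ℝ) (f : ℝ × ℝ → ℂ) : Prop where
  smooth : ContDiff ℝ (⊤ : ℕ∞) f
  per : Per T (fderiv ℝ f)
  hu : ∀ x, 0 < 1 - ‖du f x‖ ^ 2 ∧ 1 - ‖du f x‖ ^ 2 ≤ δ
  hv : ∀ x, 0 < 1 - ‖dv f x‖ ^ 2 ∧ 1 - ‖dv f x‖ ^ 2 ≤ δ

lemma contDiff_dv {f : ℝ × ℝ → ℂ} (hf : ContDiff ℝ (⊤ : ℕ∞) f) : ContDiff ℝ (⊤ : ℕ∞) (dv f) := by
  unfold dv
  exact (hf.fderiv_right (m := (⊤ : ℕ∞)) (by simp)).clm_apply contDiff_const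

/-- perturbation of the deficit -/
lemma deficit_pert {z w : ℂ} {m ε δ : ℝ} (h : ‖z - w‖ ≤ ε) (hw : m ≤ 1 - ‖w‖ ^ 2)
    (hw' : 1 - ‖w‖ ^ 2 ≤ δ) (hε : ε ≤ m / 4) (hm : 0 < m) (hε0 : 0 < ε) :
    0 < 1 - ‖z‖ ^ 2 ∧ 1 - ‖z‖ ^ 2 ≤ δ + 2 * ε := by
  have h1 : ‖z‖ ≤ ‖w‖ + ε := by
    have := norm_add_le w (z - w)
    rw [add_sub_cancel] at this
    linarith
  have h2 : ‖w‖ ≤ ‖z‖ + ε := by
    have := norm_sub_le z (z - w)
    rw [sub_sub_cancel] at this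
    linarith
  have hz := norm_nonneg z
  have hw0 := norm_nonneg w
  have hw1 : ‖w‖ ≤ 1 := by nlinarith
  constructor
  · have : ‖z‖ ^ 2 ≤ (‖w‖ + ε) ^ 2 := by gcongr
    nlinarith
  · rcases le_total (‖w‖ - ε) 0 with h3 | h3
    · nlinarith
    · have : (‖w‖ - ε) ^ 2 ≤ ‖z‖ ^ 2 := by
        apply pow_le_pow_left₀ h3
        linarith
      nlinarith

lemma double {T : ℝ} {m : ℤ} (hT : T = 2 * π * m) (hT0 : 0 < T) {f : ℝ × ℝ → ℂ} {δ : ℝ}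
    (hδ0 : 0 < δ) (hδ : δ ≤ 1 / 10) (hf : St T δ f) :
    ∃ F : ℝ × ℝ → ℂ, St T (25 / 36 * δ) F ∧ F 0 = f 0 ∧ (∀ x, ‖du F x - du f x‖ ≤ 3 / 2 * √δ) ∧
      ∀ x, ‖dv F x - dv f x‖ ≤ 3 / 2 * √δ := by
  have hsδ : 3 * δ ≤ √δ := by
    have h1 : √δ ≤ 1 / 3 := by
      rw [show (1 / 3 : ℝ) = √(1 / 9) by
        rw [show (1 / 9 : ℝ) = (1 / 3) ^ 2 by norm_num, sqrt_sq (by norm_num)]]
      exact sqrt_le_sqrt (by linarith)
    have h2 := sq_sqrt hδ0.le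
    have h3 := sqrt_nonneg δ
    nlinarith
  -- first step
  have c1 : Continuous (fun x => 1 - ‖dv f x‖ ^ 2) :=
    (contDiff_const.sub ((contDiff_dv hf.smooth).norm_sq ℝ)).continuous
  obtain ⟨m1, hm10, hm1⟩ := Per.pos hT0 c1
    ⟨fun x => by simp only [dv, hf.per.1], fun x => by simp only [dv, hf.per.2]⟩
    (fun x => (hf.hv x).1)
  have hm1δ : m1 ≤ δ := (hm1 0).trans (hf.hv 0).2
  obtain ⟨F1, a1, a2, a3, a4, a5, a6⟩ := step hT hT0 hf.smooth hf.per (by linarith : δ ≤ 1 / 9)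
    hf.hu (show 0 < m1 / 200 by positivity)
  have b1 : ∀ x, 0 < 1 - ‖dv F1 x‖ ^ 2 ∧ 1 - ‖dv F1 x‖ ^ 2 ≤ 101 / 100 * δ := by
    intro x
    obtain ⟨h1, h2⟩ := deficit_pert (a6 x) (hm1 x) (hf.hv x).2 (by linarith) hm10
      (by positivity)
    exact ⟨h1, by linarith⟩
  -- second step
  have c2 : Continuous (fun x => 1 - ‖du F1 x‖ ^ 2) :=
    (contDiff_const.sub ((contDiff_du a1).norm_sq ℝ)).continuous
  obtain ⟨m2, hm20, hm2⟩ := Per.pos hT0 c2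
    ⟨fun x => by simp only [du, a2.1], fun x => by simp only [du, a2.2]⟩
    (fun x => (a4 x).1)
  have hm2δ : m2 ≤ 2 / 3 * δ := (hm2 0).trans (a4 0).2
  obtain ⟨F2, d1, d2, d3, d4, d5, d6⟩ := step' hT hT0 a1 a2 (by linarith : 101 / 100 * δ ≤ 1 / 9)
    b1 (show 0 < m2 / 200 by positivity)
  have hsq : √(101 / 100 * δ) ≤ 101 / 100 * √δ := by
    rw [sqrt_le_left (by positivity), mul_pow, sq_sqrt hδ0.le]
    nlinarith
  refine ⟨F2, ⟨d1, d2, ?_, ?_⟩, d3.trans a3, ?_, ?_⟩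
  · intro x
    obtain ⟨h1, h2⟩ := deficit_pert (d6 x) (hm2 x) (a4 x).2 (by linarith) hm20
      (by positivity)
    exact ⟨h1, by linarith⟩
  · intro x
    exact ⟨(d4 x).1, by linarith [(d4 x).2]⟩
  · intro x
    have h1 := norm_add_le (du F2 x - du F1 x) (du F1 x - du f x)
    rw [sub_add_sub_cancel] at h1
    linarith [a5 x, d6 x]
  · intro x
    have h1 := norm_add_le (dv F2 x - dv F1 x) (dv F1 x - dv f x)
    rw [sub_add_sub_cancel] at h1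
    linarith [a6 x, d5 x]

lemma fderiv_norm_le (g : ℝ × ℝ → ℂ) (x : ℝ × ℝ) {a b : ℝ} (ha : ‖du g x‖ ≤ a)
    (hb : ‖dv g x‖ ≤ b) : ‖fderiv ℝ g x‖ ≤ a + b := by
  apply ContinuousLinearMap.opNorm_le_bound _
    (by linarith [norm_nonneg (du g x), norm_nonneg (dv g x)])
  rintro ⟨y1, y2⟩
  have e : fderiv ℝ g x (y1, y2) = y1 • du g x + y2 • dv g x := by
    unfold du dv
    rw [← map_smul, ← map_smul, ← map_add]
    simp
  rw [e]
  have h1 : ‖y1‖ ≤ ‖(y1, y2)‖ := norm_fst_le (y1, y2)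
  have h2 : ‖y2‖ ≤ ‖(y1, y2)‖ := norm_snd_le (y1, y2)
  have h3 := norm_nonneg (du g x)
  have h4 := norm_nonneg (dv g x)
  calc ‖y1 • du g x + y2 • dv g x‖ ≤ ‖y1 • du g x‖ + ‖y2 • dv g x‖ := norm_add_le _ _
    _ = ‖y1‖ * ‖du g x‖ + ‖y2‖ * ‖dv g x‖ := by rw [norm_smul, norm_smul]
    _ ≤ ‖(y1, y2)‖ * a + ‖(y1, y2)‖ * b := by gcongr
    _ = (a + b) * ‖(y1, y2)‖ := by ring

lemma du_sub {f g : ℝ × ℝ → ℂ} {x : ℝ × ℝ} (hf : DifferentiableAt ℝ f x)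
    (hg : DifferentiableAt ℝ g x) : du (fun x => f x - g x) x = du f x - du g x := by
  unfold du
  rw [fderiv_fun_sub hf hg]
  rfl

lemma dv_sub {f g : ℝ × ℝ → ℂ} {x : ℝ × ℝ} (hf : DifferentiableAt ℝ f x)
    (hg : DifferentiableAt ℝ g x) : dv (fun x => f x - g x) x = dv f x - dv g x := by
  unfold dv
  rw [fderiv_fun_sub hf hg]
  rfl

/-- The limit of the corrugations. -/
theorem main {T : ℝ} {m : ℤ} (hT : T = 2 * π * m) (hT0 : 0 < T) {f0 : ℝ × ℝ → ℂ} {r : ℝ}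
    (hr0 : 0 < r) (hr : r ^ 2 ≤ 1 / 10) (hf : St T (r ^ 2) f0) :
    ∃ f : ℝ × ℝ → ℂ, ContDiff ℝ 1 f ∧ (∀ x, ‖du f x‖ = 1) ∧ (∀ x, ‖dv f x‖ = 1) ∧
      (∀ x, ‖du f x - du f0 x‖ ≤ 9 * r) ∧ ∀ x, ‖dv f x - dv f0 x‖ ≤ 9 * r := by
  set δ : ℕ → ℝ := fun k => (r * (5 / 6) ^ k) ^ 2 with hδ
  have hδs : ∀ k, δ (k + 1) = 25 / 36 * δ k := by
    intro k
    simp only [hδ]
    ring
  have hδ0 : ∀ k, 0 < δ k := fun k => by simp only [hδ]; positivity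
  have hδ1 : ∀ k, δ k ≤ 1 / 10 := by
    intro k
    have h1 : ((5 / 6 : ℝ) ^ k) ≤ 1 := pow_le_one₀ (by norm_num) (by norm_num)
    have h2 : 0 < ((5 / 6 : ℝ) ^ k) := by positivity
    simp only [hδ]
    rw [mul_pow]
    nlinarith
  have hsq : ∀ k, √(δ k) = r * (5 / 6) ^ k := fun k => sqrt_sq (by positivity)
  have hex : ∀ k (f : ℝ × ℝ → ℂ), St T (δ k) f → ∃ F : ℝ × ℝ → ℂ, St T (δ (k + 1)) F ∧
      F 0 = f 0 ∧ (∀ x, ‖du F x - du f x‖ ≤ 3 / 2 * (r * (5 / 6) ^ k)) ∧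
      ∀ x, ‖dv F x - dv f x‖ ≤ 3 / 2 * (r * (5 / 6) ^ k) := by
    intro k f hf
    obtain ⟨F, h1, h2, h3, h4⟩ := double hT hT0 (hδ0 k) (hδ1 k) hf
    rw [hsq] at h3 h4
    rw [← hδs] at h1
    exact ⟨F, h1, h2, h3, h4⟩
  choose nxt n1 n2 n3 n4 using hex
  have hst0 : St T (δ 0) f0 := by
    simp only [hδ, pow_zero, mul_one]
    exact hf
  let seq : ∀ k : ℕ, {f : ℝ × ℝ → ℂ // St T (δ k) f} := fun k =>
    Nat.rec ⟨f0, hst0⟩ (fun k g => ⟨nxt k g.1 g.2, n1 k g.1 g.2⟩) k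
  set F : ℕ → ℝ × ℝ → ℂ := fun k => (seq k).1 with hF
  have hFst : ∀ k, St T (δ k) (F k) := fun k => (seq k).2
  have hF0 : F 0 = f0 := rfl
  have hFz : ∀ k, F (k + 1) 0 = F k 0 := fun k => n2 k (F k) (hFst k)
  have hFu : ∀ k x, ‖du (F (k + 1)) x - du (F k) x‖ ≤ 3 / 2 * (r * (5 / 6) ^ k) :=
    fun k => n3 k (F k) (hFst k)
  have hFv : ∀ k x, ‖dv (F (k + 1)) x - dv (F k) x‖ ≤ 3 / 2 * (r * (5 / 6) ^ k) :=
    fun k => n4 k (F k) (hFst k)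
  have dF : ∀ k, Differentiable ℝ (F k) := fun k => (hFst k).smooth.differentiable (by simp)
  -- the differences
  set g : ℕ → ℝ × ℝ → ℂ := fun k x => F (k + 1) x - F k x with hg
  have dg : ∀ k, Differentiable ℝ (g k) := fun k => (dF (k + 1)).fun_sub (dF k)
  have gu : ∀ k x, ‖du (g k) x‖ ≤ 3 / 2 * (r * (5 / 6) ^ k) := by
    intro k x
    rw [hg, du_sub (dF (k + 1) x) (dF k x)]
    exact hFu k x
  have gv : ∀ k x, ‖dv (g k) x‖ ≤ 3 / 2 * (r * (5 / 6) ^ k) := by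
    intro k x
    rw [hg, dv_sub (dF (k + 1) x) (dF k x)]
    exact hFv k x
  have gf : ∀ k x, ‖fderiv ℝ (g k) x‖ ≤ 3 * r * (5 / 6) ^ k := by
    intro k x
    have := fderiv_norm_le (g k) x (gu k x) (gv k x)
    linarith
  have hsum : Summable (fun k : ℕ => 3 * r * (5 / 6 : ℝ) ^ k) :=
    (summable_geometric_of_lt_one (by norm_num) (by norm_num)).mul_left _
  have hz : Summable (fun k => g k 0) := by
    have : (fun k => g k 0) = fun _ => 0 := by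
      funext k
      simp only [hg, hFz, sub_self]
    rw [this]
    exact summable_zero
  have hd : ∀ x, HasFDerivAt (fun y => ∑' k, g k y) (∑' k, fderiv ℝ (g k) x) x := fun x =>
    hasFDerivAt_tsum hsum (fun k x => (dg k x).hasFDerivAt) gf hz x
  have hcont : Continuous (fun x => ∑' k, fderiv ℝ (g k) x) :=
    continuous_tsum (fun k => by
      have h1 : ContDiff ℝ (⊤ : ℕ∞) (g k) := (hFst (k + 1)).smooth.sub (hFst k).smooth
      exact h1.continuous_fderiv (by simp)) hsum gf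
  set f : ℝ × ℝ → ℂ := fun x => f0 x + ∑' k, g k x with hfdef
  have hdf : ∀ x, HasFDerivAt f (fderiv ℝ f0 x + ∑' k, fderiv ℝ (g k) x) x := fun x =>
    (dF 0 x).hasFDerivAt.add (hd x)
  have hfd : fderiv ℝ f = fun x => fderiv ℝ f0 x + ∑' k, fderiv ℝ (g k) x := by
    funext x
    exact (hdf x).fderiv
  have hC : ContDiff ℝ 1 f := by
    rw [contDiff_one_iff_fderiv]
    refine ⟨fun x => (hdf x).differentiableAt, ?_⟩
    rw [hfd]
    exact (hf.smooth.continuous_fderiv (by simp)).add hcont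
  have hsummable : ∀ x, Summable (fun k => fderiv ℝ (g k) x) := fun x =>
    Summable.of_norm_bounded hsum (fun k => gf k x)
  -- `fderiv f` is the limit of `fderiv F k`
  have hpart : ∀ n x, fderiv ℝ f0 x + ∑ k ∈ Finset.range n, fderiv ℝ (g k) x =
      fderiv ℝ (F n) x := by
    intro n x
    have e : ∀ k, fderiv ℝ (g k) x = fderiv ℝ (F (k + 1)) x - fderiv ℝ (F k) x := fun k =>
      fderiv_fun_sub (dF (k + 1) x) (dF k x)
    simp only [e]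
    rw [Finset.sum_range_sub (fun k => fderiv ℝ (F k) x), hF0]
    abel
  have hlim : ∀ x, Tendsto (fun n => fderiv ℝ (F n) x) atTop (𝓝 (fderiv ℝ f x)) := by
    intro x
    have h1 := ((hsummable x).hasSum.tendsto_sum_nat).const_add (fderiv ℝ f0 x)
    simp only [hpart] at h1
    rw [hfd]
    exact h1
  have hlu : ∀ x, Tendsto (fun n => du (F n) x) atTop (𝓝 (du f x)) := fun x =>
    ((ContinuousLinearMap.apply ℝ ℂ ((1, 0) : ℝ × ℝ)).continuous.tendsto _).comp (hlim x)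
  have hlv : ∀ x, Tendsto (fun n => dv (F n) x) atTop (𝓝 (dv f x)) := fun x =>
    ((ContinuousLinearMap.apply ℝ ℂ ((0, 1) : ℝ × ℝ)).continuous.tendsto _).comp (hlim x)
  have hδl : Tendsto δ atTop (𝓝 0) := by
    have h1 : Tendsto (fun k : ℕ => r * (5 / 6 : ℝ) ^ k) atTop (𝓝 (r * 0)) :=
      (tendsto_pow_atTop_nhds_zero_of_lt_one (by norm_num) (by norm_num)).const_mul r
    have h2 := h1.pow 2
    simpa using h2
  have hone : ∀ (z : ℕ → ℂ) (w : ℂ), Tendsto z atTop (𝓝 w) → (∀ n, 0 < 1 - ‖z n‖ ^ 2) →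
      (∀ n, 1 - ‖z n‖ ^ 2 ≤ δ n) → ‖w‖ = 1 := by
    intro z w hzw h1 h2
    have h3 : Tendsto (fun n => 1 - ‖z n‖ ^ 2) atTop (𝓝 (1 - ‖w‖ ^ 2)) :=
      (hzw.norm.pow 2).const_sub 1
    have h4 : Tendsto (fun n => 1 - ‖z n‖ ^ 2) atTop (𝓝 0) :=
      squeeze_zero (fun n => (h1 n).le) h2 hδl
    have h5 := tendsto_nhds_unique h3 h4
    have h6 : ‖w‖ ^ 2 = 1 := by linarith
    have h7 := norm_nonneg w
    nlinarith
  have hgeo : ∀ n : ℕ, ∑ k ∈ Finset.range n, 3 / 2 * (r * (5 / 6 : ℝ) ^ k) ≤ 9 * r := by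
    intro n
    rw [← Finset.mul_sum, ← Finset.mul_sum]
    have h1 : ∑ k ∈ Finset.range n, (5 / 6 : ℝ) ^ k ≤ 6 := by
      rw [geom_sum_eq (by norm_num)]
      have : 0 < (5 / 6 : ℝ) ^ n := by positivity
      rw [div_le_iff_of_neg (by norm_num)]
      linarith
    nlinarith
  refine ⟨f, hC, ?_, ?_, ?_, ?_⟩
  · intro x
    exact hone _ _ (hlu x) (fun n => ((hFst n).hu x).1) (fun n => ((hFst n).hu x).2)
  · intro x
    exact hone _ _ (hlv x) (fun n => ((hFst n).hv x).1) (fun n => ((hFst n).hv x).2)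
  · intro x
    have h1 : ∀ n, ‖du (F n) x - du f0 x‖ ≤ 9 * r := by
      intro n
      have h2 : du (F n) x - du f0 x = ∑ k ∈ Finset.range n, (du (F (k + 1)) x - du (F k) x) := by
        rw [Finset.sum_range_sub (fun k => du (F k) x), hF0]
      rw [h2]
      refine (norm_sum_le _ _).trans (le_trans (Finset.sum_le_sum fun k _ => hFu k x) (hgeo n))
    exact le_of_tendsto ((hlu x).sub_const _).norm (Eventually.of_forall h1)
  · intro x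
    have h1 : ∀ n, ‖dv (F n) x - dv f0 x‖ ≤ 9 * r := by
      intro n
      have h2 : dv (F n) x - dv f0 x = ∑ k ∈ Finset.range n, (dv (F (k + 1)) x - dv (F k) x) := by
        rw [Finset.sum_range_sub (fun k => dv (F k) x), hF0]
      rw [h2]
      refine (norm_sum_le _ _).trans (le_trans (Finset.sum_le_sum fun k _ => hFv k x) (hgeo n))
    exact le_of_tendsto ((hlv x).sub_const _).norm (Eventually.of_forall h1)

end Pool.Agent.V11194.Cheb
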