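import Pool.Agent.V11194.Mono

set_option autoImplicit false

/-! # The two groups of order 819 -/

namespace Pool.Agent.V11194.Wolf

open Pool.Agent.Helper477.Sph Pool.Agent.V11194.Mono Pool.Agent.Helper477.HarmInv
open scoped Matrix

/-- The exponent `r`. -/
def rr (c : Bool) : ZMod 91 := if c then 16 else 9

/-- `r ^ b`. -/
def rp (c : Bool) (b : ZMod 9) : ZMod 91 := rr c ^ b.val

theorem rp_add : ∀ (c : Bool) (b b' : ZMod 9), rp c (b + b') = rp c b * rp c b' := by
  decide +kernel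

theorem rp_zero (c : Bool) : rp c 0 = 1 := by
  simp [rp]

/-- The metacyclic group `⟨A, B | A^91 = B^9 = 1, B A B⁻¹ = A^r⟩`. -/
@[ext] structure Gp (c : Bool) where
  a : ZMod 91
  b : ZMod 9

variable {c : Bool}

instance : Mul (Gp c) := ⟨fun x y => ⟨x.a + rp c x.b * y.a, x.b + y.b⟩⟩
instance : One (Gp c) := ⟨⟨0, 0⟩⟩
instance : Inv (Gp c) := ⟨fun x => ⟨-(rp c (-x.b) * x.a), -x.b⟩⟩

theorem mul_a (x y : Gp c) : (x * y).a = x.a + rp c x.b * y.a := rfl
theorem mul_b (x y : Gp c) : (x * y).b = x.b + y.b := rfl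
theorem one_a : (1 : Gp c).a = 0 := rfl
theorem one_b : (1 : Gp c).b = 0 := rfl
theorem inv_a (x : Gp c) : (x⁻¹).a = -(rp c (-x.b) * x.a) := rfl
theorem inv_b (x : Gp c) : (x⁻¹).b = -x.b := rfl

instance : Group (Gp c) :=
  Group.ofLeftAxioms
    (fun x y z => by
      ext
      · simp only [mul_a, mul_b, rp_add]; ring
      · simp only [mul_b]; ring)
    (fun x => by
      ext
      · simp only [mul_a, one_a, one_b, rp_zero]; ring
      · simp only [mul_b, one_b]; ring)
    (fun x => by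
      ext
      · simp only [mul_a, inv_a, inv_b, one_a]; ring
      · simp only [mul_b, inv_b, one_b]; ring)

/-- Equivalence with pairs. -/
def eqv (c : Bool) : Gp c ≃ ZMod 91 × ZMod 9 where
  toFun x := (x.a, x.b)
  invFun p := ⟨p.1, p.2⟩
  left_inv _ := rfl
  right_inv _ := rfl

instance : Fintype (Gp c) := Fintype.ofEquiv _ (eqv c).symm

/-! ### Embeddings of the cyclic groups in `ZMod 819` -/

/-- `x ↦ 9 x` -/
def i9 (x : ZMod 91) : ZMod 819 := ((9 * x.val : ℕ) : ZMod 819)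
/-- `x ↦ 91 x` -/
def i91 (x : ZMod 9) : ZMod 819 := ((91 * x.val : ℕ) : ZMod 819)

theorem i9_add (x y : ZMod 91) : i9 (x + y) = i9 x + i9 y := by
  unfold i9
  rw [← Nat.cast_add, ZMod.natCast_eq_natCast_iff, ← mul_add, ZMod.val_add]
  exact (Nat.mod_modEq (x.val + y.val) 91).mul_left' 9

theorem i91_add (x y : ZMod 9) : i91 (x + y) = i91 x + i91 y := by
  unfold i91
  rw [← Nat.cast_add, ZMod.natCast_eq_natCast_iff, ← mul_add, ZMod.val_add]
  exact (Nat.mod_modEq (x.val + y.val) 9).mul_left' 91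

theorem i9_zero : i9 0 = 0 := by decide
theorem i91_zero : i91 0 = 0 := by decide

theorem sum_eq_zero (x : ZMod 91) (y : ZMod 9) (h : i9 x + i91 y = 0) : x = 0 ∧ y = 0 := by
  unfold i9 i91 at h
  rw [← Nat.cast_add, ZMod.natCast_eq_zero_iff] at h
  have hx := x.val_lt
  have hy := y.val_lt
  have h1 : 91 ∣ 9 * x.val := by
    have : 91 ∣ 9 * x.val + 91 * y.val := Dvd.dvd.trans (by norm_num) h
    exact (Nat.dvd_add_left (Dvd.intro _ rfl)).1 this
  have h2 : 9 ∣ 91 * y.val := by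
    have : 9 ∣ 9 * x.val + 91 * y.val := Dvd.dvd.trans (by norm_num) h
    exact (Nat.dvd_add_right (Dvd.intro _ rfl)).1 this
  have h3 : 91 ∣ x.val := (Nat.Coprime.dvd_mul_left (by norm_num)).1 h1
  have h4 : 9 ∣ y.val := (Nat.Coprime.dvd_mul_left (by norm_num)).1 h2
  have h5 : x.val = 0 := Nat.eq_zero_of_dvd_of_lt h3 hx
  have h6 : y.val = 0 := Nat.eq_zero_of_dvd_of_lt h4 hy
  exact ⟨(ZMod.val_eq_zero x).1 h5, (ZMod.val_eq_zero y).1 h6⟩

/-! ### The representation -/

/-- Index set of the planes. -/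
abbrev I9 : Type := ZMod 3 × ZMod 3

/-- reduction mod 3 -/
def c3 (b : ZMod 9) : ZMod 3 := ((b.val : ℕ) : ZMod 3)

theorem c3_add : ∀ x y : ZMod 9, c3 (x + y) = c3 x + c3 y := by decide +kernel

/-- `K_k` -/
def KK (k : ZMod 3) : ZMod 91 := 29 ^ k.val

/-- The exponents of the diagonal matrix `A`. -/
def ee (c : Bool) (i : I9) : ZMod 91 := KK i.1 * rr c ^ i.2.val

/-- The permutation of the planes. -/
def sg (b : ZMod 9) : Equiv.Perm I9 where
  toFun i := (i.1, i.2 - c3 b)
  invFun i := (i.1, i.2 + c3 b)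
  left_inv i := by simp
  right_inv i := by simp

theorem sg_inv_apply (b : ZMod 9) (i : I9) : (sg b)⁻¹ i = (i.1, i.2 + c3 b) := rfl

theorem sg_mul (b b' : ZMod 9) : sg (b + b') = sg b * sg b' := by
  ext i
  · simp [sg]
  · simp only [sg, Equiv.coe_fn_mk, Equiv.Perm.mul_apply, c3_add]
    ring

theorem ee_sg : ∀ (c : Bool) (b : ZMod 9) (i : I9),
    ee c (i.1, i.2 + c3 b) = rp c b * ee c i := by decide +kernel

/-- the rotation numbers -/
def tt (x : Gp c) (i : I9) : ZMod 819 := i9 (ee c i * x.a) + i91 x.b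

/-- The matrix of a group element. -/
noncomputable def MM (x : Gp c) : Matrix (I9 × Fin 2) (I9 × Fin 2) ℝ := Mon (tt x) (sg x.b)

theorem MM_mul (x y : Gp c) : MM (x * y) = MM x * MM y := by
  unfold MM
  rw [Mon_mul, mul_b, sg_mul]
  congr 1
  funext i
  simp only [tt, mul_a, mul_b, i91_add, sg_inv_apply, ee_sg, mul_add, i9_add]
  have : ee c i * (rp c x.b * y.a) = rp c x.b * ee c i * y.a := by ring
  rw [this]
  ring

theorem MM_one : MM (1 : Gp c) = 1 := by
  unfold MM
  have h1 : tt (1 : Gp c) = fun _ => 0 := by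
    funext i
    simp [tt, one_a, one_b, i9_zero, i91_zero]
  have h2 : sg (0 : ZMod 9) = 1 := by
    ext i <;> simp [sg, c3]
  rw [h1, one_b, h2, Mon_one]

theorem ee_unit : ∀ (c : Bool) (i : I9), IsUnit (ee c i) := by decide +kernel

theorem ee_00 : ∀ c : Bool, ee c (0, 0) = 1 := by decide +kernel

theorem MM_injective : Function.Injective (MM (c := c)) := by
  intro x y h
  obtain ⟨h1, h2⟩ := Mon_injective h
  have h3 := congrFun h1 (0, 0)
  have e1 : ee c (0, 0) = 1 := ee_00 c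
  simp only [tt, e1, one_mul] at h3
  have h4 : i9 (x.a - y.a) + i91 (x.b - y.b) = 0 := by
    have a1 : i9 (x.a - y.a) + i9 y.a = i9 x.a := by rw [← i9_add, sub_add_cancel]
    have a2 : i91 (x.b - y.b) + i91 y.b = i91 x.b := by rw [← i91_add, sub_add_cancel]
    linear_combination a1 + a2 + h3
  obtain ⟨h5, h6⟩ := sum_eq_zero _ _ h4
  ext
  · exact sub_eq_zero.1 h5
  · exact sub_eq_zero.1 h6

/-- The enumeration of the coordinates. -/
noncomputable def en : Fin 18 ≃ I9 × Fin 2 :=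
  (Fintype.equivFinOfCardEq (by decide : Fintype.card (I9 × Fin 2) = 18)).symm

/-- The orthogonal matrix of a group element. -/
noncomputable def OM (x : Gp c) : Matrix.orthogonalGroup (Fin 18) ℝ :=
  ⟨(MM x).submatrix en en, (Matrix.mem_orthogonalGroup_iff _ _).mpr (by
    have : ((MM x).submatrix en en)ᵀ = ((MM x)ᵀ).submatrix en en := rfl
    rw [this, Matrix.submatrix_mul_equiv]
    unfold MM
    rw [Mon_mul_transpose, Matrix.submatrix_one_equiv])⟩

theorem OM_coe (x : Gp c) : (OM x).1 = (MM x).submatrix en en := rfl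

/-- The representation. -/
noncomputable def rho (c : Bool) : Gp c →* Matrix.orthogonalGroup (Fin 18) ℝ where
  toFun := OM
  map_one' := by
    apply Subtype.ext
    rw [OM_coe, MM_one, Matrix.submatrix_one_equiv]
    rfl
  map_mul' x y := by
    apply Subtype.ext
    have : (OM x * OM y).1 = (OM x).1 * (OM y).1 := rfl
    rw [this, OM_coe, OM_coe, OM_coe, Matrix.submatrix_mul_equiv, MM_mul]

theorem rho_injective (c : Bool) : Function.Injective (rho c) := by
  intro x y h
  apply MM_injective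
  have h1 : (MM x).submatrix en en = (MM y).submatrix en en := congrArg Subtype.val h
  ext i j
  have := congrFun (congrFun h1 (en.symm i)) (en.symm j)
  simpa using this

/-! ### Free action -/

theorem pow3_a (x : Gp c) (h : c3 x.b ≠ 0) : (x * x * x).a = 0 := by
  rw [mul_a, mul_a, mul_b, rp_add]
  have h1 : ∀ (c : Bool) (b : ZMod 9), c3 b ≠ 0 → 1 + rp c b + rp c b * rp c b = 0 := by
    decide +kernel
  linear_combination x.a * h1 c x.b h

theorem MM_free (x : Gp c) (hx : x ≠ 1) (v : I9 × Fin 2 → ℝ) (hv : (MM x).mulVec v = v) :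
    v = 0 := by
  by_cases h : c3 x.b = 0
  · have hs : sg x.b = 1 := by ext i <;> simp [sg, h]
    unfold MM at hv
    rw [hs] at hv
    refine Mon_fix (fun i hi => hx ?_) v hv
    obtain ⟨h1, h2⟩ := sum_eq_zero _ _ hi
    have h3 : x.a = 0 := by
      have := (ee_unit c i).mul_right_eq_zero.1 h1
      exact this
    ext
    · rw [h3]; rfl
    · rw [h2]; rfl
  · have hv3 : (MM (x * x * x)).mulVec v = v := by
      rw [MM_mul, MM_mul, ← Matrix.mulVec_mulVec, hv, ← Matrix.mulVec_mulVec, hv, hv]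
    have ha := pow3_a x h
    have hb : (x * x * x).b = x.b + x.b + x.b := rfl
    have hb0 : ∀ b : ZMod 9, c3 b ≠ 0 → c3 (b + b + b) = 0 ∧ b + b + b ≠ 0 := by decide +kernel
    obtain ⟨hb1, hb2⟩ := hb0 x.b h
    have hs : sg (x * x * x).b = 1 := by rw [hb]; ext i <;> simp [sg, hb1]
    unfold MM at hv3
    rw [hs] at hv3
    refine Mon_fix (fun i hi => hb2 ?_) v hv3
    obtain ⟨h1, h2⟩ := sum_eq_zero _ _ hi
    rw [← hb]
    exact h2

/-! ### Element-wise conjugacy -/

/-- `A^a B^b` is conjugate to `B^b` if `3` does not divide `b`. -/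
theorem conj_B (x : Gp c) (h : c3 x.b ≠ 0) :
    ∃ y : Gp c, y * ⟨0, x.b⟩ * y⁻¹ = x := by
  have h1 : ∀ (c : Bool) (b : ZMod 9), c3 b ≠ 0 → ∃ u : ZMod 91, u * (1 - rp c b) = 1 := by
    decide +kernel
  obtain ⟨u, hu⟩ := h1 c x.b h
  refine ⟨⟨u * x.a, 0⟩, ?_⟩
  rw [mul_inv_eq_iff_eq_mul]
  ext
  · simp only [mul_a, rp_zero]
    linear_combination x.a * hu
  · simp only [mul_b]
    ring

/-- The permutation of the planes relating the two diagonal representations. -/
def pp : Equiv.Perm I9 where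
  toFun i := (i.1 - i.2, i.2)
  invFun i := (i.1 + i.2, i.2)
  left_inv i := by simp
  right_inv i := by simp

theorem ee_pp : ∀ i : I9, ee false i = ee true (pp⁻¹ i) := by decide +kernel

theorem trace_eq (k : ℕ) (a : ZMod 91) (b : ZMod 9) :
    (Mk k (OM (⟨a, b⟩ : Gp true)).1).trace = (Mk k (OM (⟨a, b⟩ : Gp false)).1).trace := by
  by_cases h : c3 b = 0
  · have hs : sg b = 1 := by ext i <;> simp [sg, h]
    have h1 : MM (⟨a, b⟩ : Gp false) =
        Mon (fun _ : I9 => (0 : ZMod 819)) pp * MM (⟨a, b⟩ : Gp true) *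
          (Mon (fun _ : I9 => (0 : ZMod 819)) pp)ᵀ := by
      unfold MM
      simp only [hs]
      rw [Mon_transpose, Mon_mul, Mon_mul]
      have e1 : pp * 1 * pp⁻¹ = 1 := by simp
      rw [e1]
      congr 1
      funext i
      simp only [tt, neg_zero, zero_add, add_zero, ee_pp]
    have h2 : (OM (⟨a, b⟩ : Gp false)).1 = (Mon (fun _ : I9 => (0 : ZMod 819)) pp).submatrix en en *
        (OM (⟨a, b⟩ : Gp true)).1 *
        ((Mon (fun _ : I9 => (0 : ZMod 819)) pp)ᵀ).submatrix en en := by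
      rw [OM_coe, OM_coe, Matrix.submatrix_mul_equiv, Matrix.submatrix_mul_equiv, h1]
    rw [h2]
    symm
    apply trace_Mk_conj
    rw [Matrix.submatrix_mul_equiv]
    have h3 : (Mon (fun _ : I9 => (0 : ZMod 819)) pp)ᵀ * Mon (fun _ : I9 => (0 : ZMod 819)) pp = 1 :=
      mul_eq_one_comm.1 (Mon_mul_transpose (fun _ : I9 => (0 : ZMod 819)) pp)
    rw [h3, Matrix.submatrix_one_equiv]
  · have key : ∀ c : Bool, (Mk k (OM (⟨a, b⟩ : Gp c)).1).trace =
        (Mk k (OM (⟨0, b⟩ : Gp c)).1).trace := by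
      intro c
      obtain ⟨y, hy⟩ := conj_B (⟨a, b⟩ : Gp c) h
      have h1 : (OM (⟨a, b⟩ : Gp c)).1 = (rho c y).1 * (OM (⟨0, b⟩ : Gp c)).1 *
          (rho c y⁻¹).1 := by
        have : rho c (⟨a, b⟩ : Gp c) = rho c y * rho c ⟨0, b⟩ * rho c y⁻¹ := by
          rw [← map_mul, ← map_mul, hy]
        exact congrArg Subtype.val this
      rw [h1]
      apply trace_Mk_conj
      have : rho c y⁻¹ * rho c y = 1 := by rw [← map_mul, inv_mul_cancel, map_one]
      exact congrArg Subtype.val this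
    rw [key true, key false]
    have hMM : MM (⟨0, b⟩ : Gp true) = MM (⟨0, b⟩ : Gp false) := by
      unfold MM
      have : tt (⟨0, b⟩ : Gp true) = tt (⟨0, b⟩ : Gp false) := by
        funext i
        simp [tt]
      rw [this]
    rw [OM_coe, OM_coe, hMM]

/-! ### The groups are not isomorphic -/

theorem pow_a (a : ZMod 91) (k : ℕ) : (⟨a, 0⟩ : Gp c) ^ k = ⟨k * a, 0⟩ := by
  induction k with
  | zero => ext <;> simp [one_a, one_b]
  | succ k ih =>
    rw [pow_succ, ih]
    ext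
    · simp only [mul_a, rp_zero]; push_cast; ring
    · simp only [mul_b]; ring

theorem pow_b (x : Gp c) (k : ℕ) : (x ^ k).b = k * x.b := by
  induction k with
  | zero => simp [one_b]
  | succ k ih => rw [pow_succ, mul_b, ih]; push_cast; ring

theorem not_iso : IsEmpty (Gp true ≃* Gp false) := by
  constructor
  intro f
  set A : Gp true := ⟨1, 0⟩ with hA
  set B : Gp true := ⟨0, 1⟩ with hB
  have hA91 : A ^ 91 = 1 := by rw [hA, pow_a]; rfl
  have hrel : B * A * B⁻¹ = A ^ 16 := by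
    rw [mul_inv_eq_iff_eq_mul, hA, hB, pow_a]
    ext
    · decide
    · decide
  have hfb : (f A).b = 0 := by
    have h1 : (f A) ^ 91 = 1 := by rw [← map_pow, hA91, map_one]
    have h2 := congrArg Gp.b h1
    rw [pow_b, one_b] at h2
    have h3 : ((91 : ℕ) : ZMod 9) = 1 := by decide
    rwa [h3, one_mul] at h2
  obtain ⟨u, hu⟩ : ∃ u : ZMod 91, f A = ⟨u, 0⟩ := ⟨(f A).a, by ext; rfl; exact hfb⟩
  have hu0 : ∀ k : ℕ, (k : ZMod 91) ≠ 0 → (k : ZMod 91) * u ≠ 0 := by
    intro k hk h0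
    have h1 : f (A ^ k) = 1 := by
      rw [map_pow, hu, pow_a, h0]; rfl
    have h2 : A ^ k = 1 := by
      rw [← map_one f] at h1
      exact f.injective h1
    rw [hA, pow_a, mul_one] at h2
    exact hk (congrArg Gp.a h2)
  have hconj := congrArg f hrel
  rw [map_mul, map_mul, map_inv, map_pow, hu, pow_a, mul_inv_eq_iff_eq_mul] at hconj
  have h1 := congrArg Gp.a hconj
  simp only [mul_a, rp_zero, one_mul] at h1
  have h2 : rp false (f B).b * u = 16 * u := by
    have : ((16 : ℕ) : ZMod 91) = 16 := rfl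
    rw [this] at h1
    linear_combination h1
  have h3 : ∀ b : ZMod 9, ∃ k : ℕ, (k : ZMod 91) ≠ 0 ∧ ∀ u : ZMod 91,
      rp false b * u = 16 * u → (k : ZMod 91) * u = 0 := by
    intro b
    have h4 : ∀ b : ZMod 9, ∃ k : Fin 92, ((k.val : ℕ) : ZMod 91) ≠ 0 ∧ ∀ u : ZMod 91,
        rp false b * u = 16 * u → ((k.val : ℕ) : ZMod 91) * u = 0 := by
      have h5 : ∀ b : ZMod 9, ∃ k ∈ ({1, 7, 13} : Finset (Fin 92)),
        ((k.val : ℕ) : ZMod 91) ≠ 0 ∧ ∀ u : ZMod 91,
        rp false b * u = 16 * u → ((k.val : ℕ) : ZMod 91) * u = 0 := by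
        decide +kernel
      intro b
      obtain ⟨k, _, hk⟩ := h5 b
      exact ⟨k, hk⟩
    obtain ⟨k, hk⟩ := h4 b
    exact ⟨k.val, hk⟩
  obtain ⟨k, hk0, hk⟩ := h3 (f B).b
  exact hu0 k hk0 (hk u h2)

end Pool.Agent.V11194.Wolf
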