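import Pool.Agent.V11194.Rev

set_option autoImplicit false

/-! # The half period and the geodesic in the coordinates `u`, `ω` -/

open Real Set Filter Topology MeasureTheory

namespace Pool.Agent.V11194.Rev

/-! ### General `u(ω) = arccos (k sin ω)`, `k = √(1-σ²)` -/

lemma Th_pi_div_two (σ : ℝ) : Th σ (π / 2) = π / 2 * (1 + 1 / 10 * σ ^ 3) := by
  unfold Th
  rw [cos_pi_div_two, sin_pi_div_two]
  simp
  ring

lemma Th_zero (σ : ℝ) : Th σ 0 = 0 := by
  unfold Th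
  simp

lemma Th_pi (σ : ℝ) : Th σ π = π * (1 + 1 / 10 * σ ^ 3) := by
  unfold Th
  rw [cos_pi, sin_pi]
  simp
  ring

variable {σ : ℝ}

/-- `k = √(1-σ²)` -/
noncomputable def kk (σ : ℝ) : ℝ := √(1 - σ ^ 2)

lemma kk_sq (h0 : 0 < σ) (h1 : σ < 1) : kk σ ^ 2 = 1 - σ ^ 2 := by
  unfold kk
  rw [sq_sqrt]
  nlinarith

lemma kk_pos (h0 : 0 < σ) (h1 : σ < 1) : 0 < kk σ := by
  unfold kk
  apply sqrt_pos.2
  nlinarith

lemma kk_lt (h0 : 0 < σ) (h1 : σ < 1) : kk σ < 1 := by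
  have h2 := kk_sq h0 h1
  have h3 := kk_pos h0 h1
  nlinarith

/-- `u(ω)` -/
noncomputable def Uu (σ w : ℝ) : ℝ := arccos (kk σ * sin w)

lemma arg_bound (h0 : 0 < σ) (h1 : σ < 1) (w : ℝ) :
    -1 < kk σ * sin w ∧ kk σ * sin w < 1 := by
  have h2 := kk_pos h0 h1
  have h3 := kk_lt h0 h1
  have h4 := neg_one_le_sin w
  have h5 := sin_le_one w
  constructor <;> nlinarith

lemma cos_Uu (h0 : 0 < σ) (h1 : σ < 1) (w : ℝ) : cos (Uu σ w) = kk σ * sin w := by
  obtain ⟨h2, h3⟩ := arg_bound h0 h1 w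
  exact cos_arccos h2.le h3.le

lemma sin_Uu_sq (h0 : 0 < σ) (h1 : σ < 1) (w : ℝ) : sin (Uu σ w) ^ 2 = ss σ w := by
  have h2 := sin_sq_add_cos_sq (Uu σ w)
  rw [cos_Uu h0 h1] at h2
  have h3 := kk_sq h0 h1
  have h4 := sin_sq_add_cos_sq w
  unfold ss
  linear_combination h2 - h4 - sin w ^ 2 * h3

lemma Uu_mem (h0 : 0 < σ) (h1 : σ < 1) (w : ℝ) : 0 < Uu σ w ∧ Uu σ w < π := by
  obtain ⟨h2, h3⟩ := arg_bound h0 h1 w
  constructor
  · exact arccos_pos.2 h3
  · rw [Uu, ← arccos_neg_one]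
    exact arccos_lt_arccos (le_refl _) h2 h3.le

lemma sin_Uu_pos (h0 : 0 < σ) (h1 : σ < 1) (w : ℝ) : 0 < sin (Uu σ w) :=
  sin_pos_of_pos_of_lt_pi (Uu_mem h0 h1 w).1 (Uu_mem h0 h1 w).2

lemma hasDeriv_Uu (h0 : 0 < σ) (h1 : σ < 1) (w : ℝ) :
    HasDerivAt (Uu σ) (-(kk σ * cos w) / sin (Uu σ w)) w := by
  obtain ⟨h2, h3⟩ := arg_bound h0 h1 w
  have h4 := ((hasDerivAt_sin w).const_mul (kk σ))
  have h5 := (hasDerivAt_arccos (x := kk σ * sin w) h2.ne' h3.ne).comp w h4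
  refine h5.congr_deriv ?_
  have h6 : sin (Uu σ w) = √(1 - (kk σ * sin w) ^ 2) := sin_arccos _
  rw [h6]
  ring

/-! ### The half period -/

/-- Change of variables for the half period. -/
lemma image_eq (h0 : 0 < σ) (h1 : σ < 1) :
    (fun w => RR (Uu σ w)) '' Ioo 0 (π / 2) = Ioo (RR (arcsin σ)) (π / 2) := by
  have hk0 := kk_pos h0 h1
  have has : arcsin σ = arccos (kk σ) := arcsin_eq_arccos h0.le
  ext x
  constructor
  · rintro ⟨w, ⟨hw0, hw1⟩, rfl⟩
    have hs0 : 0 < sin w := sin_pos_of_pos_of_lt_pi hw0 (by linarith)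
    have hs1 : sin w < 1 := by
      rw [← sin_pi_div_two]
      exact sin_lt_sin_of_lt_of_le_pi_div_two (by linarith) (le_refl _) hw1
    constructor
    · apply RR_mono
      rw [has]
      exact arccos_lt_arccos (by nlinarith) (by nlinarith) (kk_lt h0 h1).le
    · show RR (Uu σ w) < π / 2
      rw [← RR_pi_div_two]
      apply RR_mono
      show arccos _ < _
      rw [← arccos_zero]
      exact arccos_lt_arccos (by norm_num) (by positivity) (by nlinarith [kk_lt h0 h1])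
  · rintro ⟨hx0, hx1⟩
    have hu0 : arccos (kk σ) < uu x := by
      rw [← has, ← uu_RR (arcsin σ)]
      exact uu_mono hx0
    have hu1 : uu x < π / 2 := by
      rw [← uu_pi_div_two]
      exact uu_mono hx1
    have hap : 0 ≤ arccos (kk σ) := arccos_nonneg _
    have hc1 : cos (uu x) < kk σ := by
      have := cos_lt_cos_of_nonneg_of_le_pi hap (by linarith [pi_pos]) hu0
      rwa [cos_arccos (by linarith) (kk_lt h0 h1).le] at this
    have hc0 : 0 < cos (uu x) := cos_pos_of_mem_Ioo ⟨by linarith, hu1⟩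
    refine ⟨arcsin (cos (uu x) / kk σ), ⟨?_, ?_⟩, ?_⟩
    · exact arcsin_pos.2 (by positivity)
    · rw [← arcsin_one]
      have : cos (uu x) / kk σ < 1 := by rw [div_lt_one hk0]; exact hc1
      exact arcsin_lt_arcsin (by linarith [show (0 : ℝ) < cos (uu x) / kk σ by positivity]) this
        (le_refl _)
    · have h2 : cos (uu x) / kk σ ≤ 1 := by rw [div_le_one hk0]; exact hc1.le
      have h3 : -1 ≤ cos (uu x) / kk σ := by
        have : 0 < cos (uu x) / kk σ := by positivity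
        linarith
      show RR (arccos (kk σ * sin (arcsin (cos (uu x) / kk σ)))) = x
      rw [sin_arcsin h3 h2, mul_div_cancel₀ _ hk0.ne', arccos_cos (by linarith) (by linarith)]
      exact RR_uu x

lemma integral_eq (h0 : 0 < σ) (h1 : σ < 1) :
    ∫ x in Ioo (RR (arcsin σ)) (π / 2), (40 / 41 * σ) /
      (mm x * √(mm x ^ 2 - (40 / 41 * σ) ^ 2)) = π / 2 * (1 + 1 / 10 * σ ^ 3) := by
  have hk0 := kk_pos h0 h1
  rw [← image_eq h0 h1]
  have hd : ∀ w ∈ Ioo (0 : ℝ) (π / 2), HasDerivWithinAt (fun w => RR (Uu σ w))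
      (DD (Uu σ w) * (-(kk σ * cos w) / sin (Uu σ w))) (Ioo 0 (π / 2)) w := fun w _ =>
    ((hasDeriv_RR (Uu σ w)).comp w (hasDeriv_Uu h0 h1 w)).hasDerivWithinAt
  have hinj : InjOn (fun w => RR (Uu σ w)) (Ioo 0 (π / 2)) := by
    intro a ha b hb hab
    have h2 := RR_mono.injective hab
    have h3 := congrArg cos h2
    rw [cos_Uu h0 h1, cos_Uu h0 h1] at h3
    have h4 := mul_left_cancel₀ hk0.ne' h3
    exact injOn_sin ⟨by linarith [ha.1, pi_pos], ha.2.le⟩ ⟨by linarith [hb.1, pi_pos], hb.2.le⟩ h4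
  rw [integral_image_eq_integral_abs_deriv_smul measurableSet_Ioo hd hinj]
  have hint : ∀ w ∈ Ioo (0 : ℝ) (π / 2),
      |DD (Uu σ w) * (-(kk σ * cos w) / sin (Uu σ w))| • ((40 / 41 * σ) /
      (mm (RR (Uu σ w)) * √(mm (RR (Uu σ w)) ^ 2 - (40 / 41 * σ) ^ 2))) =
      σ * (1 / ss σ w + 1 / 10 * (2 * ss σ w - 1)) := by
    intro w hw
    have hc : 0 < cos w := cos_pos_of_mem_Ioo ⟨by linarith [hw.1, pi_pos], hw.2⟩
    have hs := sin_Uu_pos h0 h1 w
    have hD := DD_pos (Uu σ w)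
    have hss := sin_Uu_sq h0 h1 w
    rw [mm_RR]
    have e1 : √((40 / 41 * sin (Uu σ w)) ^ 2 - (40 / 41 * σ) ^ 2) = 40 / 41 * (kk σ * cos w) := by
      rw [show (40 / 41 * sin (Uu σ w)) ^ 2 - (40 / 41 * σ) ^ 2 = (40 / 41 * (kk σ * cos w)) ^ 2 by
        have h4 := sin_sq_add_cos_sq w
        have h3 := kk_sq h0 h1
        rw [mul_pow, hss]
        unfold ss
        linear_combination (1600 / 1681 * (σ ^ 2)) * h4 - (1600 / 1681 * cos w ^ 2) * h3]
      exact sqrt_sq (by positivity)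
    rw [e1]
    have e2 : |DD (Uu σ w) * (-(kk σ * cos w) / sin (Uu σ w))| =
        DD (Uu σ w) * ((kk σ * cos w) / sin (Uu σ w)) := by
      rw [neg_div, mul_neg, abs_neg, abs_of_pos (by positivity)]
    rw [e2, smul_eq_mul, ← hss]
    unfold DD
    field_simp
  rw [setIntegral_congr_fun measurableSet_Ioo hint]
  rw [← integral_Ioc_eq_integral_Ioo, ← intervalIntegral.integral_of_le (by positivity)]
  have hcont : Continuous (fun w => σ * (1 / ss σ w + 1 / 10 * (2 * ss σ w - 1))) := by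
    have h2 : Continuous (ss σ) := by unfold ss; fun_prop
    have h3 : ∀ w, ss σ w ≠ 0 := fun w => (ss_pos h0 w).ne'
    fun_prop (disch := assumption)
  rw [intervalIntegral.integral_eq_sub_of_hasDerivAt (fun w _ => hasDeriv_Th h0 w)
    (hcont.intervalIntegrable _ _), Th_pi_div_two, Th_zero, sub_zero]

/-! ### The geodesic with `σ = 3/5` -/

/-- arc length as a function of `ω` -/
noncomputable def LL (w : ℝ) : ℝ :=
  40 / 41 * (6467 / 6250 * w + 86 / 3125 * sin (2 * w) + 8 / 3125 * sin (4 * w))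

lemma contDiff_LL : ContDiff ℝ (⊤ : ℕ∞) LL := by
  unfold LL
  fun_prop

lemma s35 : (0 : ℝ) < 3 / 5 ∧ (3 / 5 : ℝ) < 1 := by norm_num

lemma kk35 : kk (3 / 5) = 4 / 5 := by
  unfold kk
  rw [show (1 : ℝ) - (3 / 5) ^ 2 = (4 / 5) ^ 2 by norm_num, sqrt_sq (by norm_num)]

lemma hasDeriv_LL (w : ℝ) : HasDerivAt LL (DD (Uu (3 / 5) w)) w := by
  have h1 : HasDerivAt (fun w : ℝ => 6467 / 6250 * w) (6467 / 6250) w := by
    simpa using (hasDerivAt_id w).const_mul (6467 / 6250)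
  refine (((h1.add ((sin2 w).const_mul (86 / 3125))).add
    ((sin4 w).const_mul (8 / 3125))).const_mul (40 / 41)).congr_deriv ?_
  have h2 := sin_Uu_sq s35.1 s35.2 w
  unfold DD
  rw [show sin (Uu (3 / 5) w) ^ 4 = (sin (Uu (3 / 5) w) ^ 2) ^ 2 by ring, h2, cos2_eq, cos4_eq]
  unfold ss
  rw [show cos w ^ 2 = 1 - sin w ^ 2 by linarith [sin_sq_add_cos_sq w]]
  ring

lemma exists_ww : ∃ g : ℝ → ℝ, ContDiff ℝ (⊤ : ℕ∞) g ∧ (∀ x, g (LL x) = x) ∧
    (∀ y, LL (g y) = y) ∧ StrictMono LL := by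
  refine exists_inv LL (fun w => DD (Uu (3 / 5) w)) contDiff_LL hasDeriv_LL
    (fun w => DD_pos _) 1 (40 / 41 * (6467 / 6250)) (by norm_num) (fun x => ?_)
  unfold LL
  have h1 := abs_le.1 (abs_sin_le_one (2 * x))
  have h2 := abs_le.1 (abs_sin_le_one (4 * x))
  rw [abs_le]
  constructor <;> linarith

/-- The inverse of `LL`. -/
noncomputable def ww : ℝ → ℝ := exists_ww.choose

lemma contDiff_ww : ContDiff ℝ (⊤ : ℕ∞) ww := exists_ww.choose_spec.1
lemma ww_LL (x : ℝ) : ww (LL x) = x := exists_ww.choose_spec.2.1 x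
lemma LL_ww (x : ℝ) : LL (ww x) = x := exists_ww.choose_spec.2.2.1 x
lemma LL_mono : StrictMono LL := exists_ww.choose_spec.2.2.2

lemma ww_mono : StrictMono ww := by
  intro a b hab
  by_contra h
  push Not at h
  have := LL_mono.monotone h
  rw [LL_ww, LL_ww] at this
  linarith

lemma LL_zero : LL 0 = 0 := by simp [LL]
lemma ww_zero : ww 0 = 0 := by
  have := ww_LL 0
  rwa [LL_zero] at this

lemma hasDeriv_ww (t : ℝ) : HasDerivAt ww (1 / DD (Uu (3 / 5) (ww t))) t := by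
  have h1 : DifferentiableAt ℝ ww t := (contDiff_ww.differentiable (by simp)).differentiableAt
  have h2 : HasDerivAt (fun r => LL (ww r)) (DD (Uu (3 / 5) (ww t)) * deriv ww t) t :=
    (hasDeriv_LL (ww t)).comp t h1.hasDerivAt
  have h3 : (fun r => LL (ww r)) = fun r => r := by funext r; exact LL_ww r
  rw [h3] at h2
  have h4 := h2.unique (hasDerivAt_id t)
  have h5 : deriv ww t = 1 / DD (Uu (3 / 5) (ww t)) := by
    rw [eq_div_iff (DD_pos _).ne']
    linarith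
  rw [← h5]
  exact h1.hasDerivAt

/-- radial coordinate of the geodesic -/
noncomputable def rg (t : ℝ) : ℝ := RR (Uu (3 / 5) (ww t))
/-- angular coordinate of the geodesic -/
noncomputable def tg (t : ℝ) : ℝ := Th (3 / 5) (ww t)

lemma contDiff_Uu : ContDiff ℝ (⊤ : ℕ∞) (Uu (3 / 5)) := by
  rw [contDiff_iff_contDiffAt]
  intro w
  obtain ⟨h2, h3⟩ := arg_bound s35.1 s35.2 w
  have h4 : ContDiffAt ℝ (⊤ : ℕ∞) (fun w => kk (3 / 5) * sin w) w :=
    (contDiff_const.mul contDiff_sin).contDiffAt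
  exact (contDiffAt_arccos (n := (⊤ : ℕ∞)) h2.ne' h3.ne).comp w h4

lemma contDiff_rg : ContDiff ℝ (⊤ : ℕ∞) rg :=
  contDiff_RR.comp (contDiff_Uu.comp contDiff_ww)

lemma contDiff_Th : ContDiff ℝ (⊤ : ℕ∞) (Th (3 / 5)) := by
  have h1 : ∀ w : ℝ, cos w ^ 2 + 3 / 5 * sin w ^ 2 ≠ 0 := by
    intro w
    have h := sin_sq_add_cos_sq w
    have h1 := sq_nonneg (sin w)
    nlinarith [sq_nonneg (cos w)]
  unfold Th
  apply ContDiff.add
  · apply ContDiff.sub contDiff_id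
    apply ContDiff.arctan
    apply ContDiff.div _ _ h1 <;> fun_prop
  · fun_prop

lemma contDiff_tg : ContDiff ℝ (⊤ : ℕ∞) tg := contDiff_Th.comp contDiff_ww

lemma hasDeriv_rg (t : ℝ) :
    HasDerivAt rg (-(4 / 5 * cos (ww t)) / sin (Uu (3 / 5) (ww t))) t := by
  have h1 := (hasDeriv_RR (Uu (3 / 5) (ww t))).comp t
    ((hasDeriv_Uu s35.1 s35.2 (ww t)).comp t (hasDeriv_ww t))
  refine h1.congr_deriv ?_
  have h2 := (DD_pos (Uu (3 / 5) (ww t))).ne'
  rw [kk35]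
  field_simp

lemma hasDeriv_tg (t : ℝ) :
    HasDerivAt tg (41 / 40 * (3 / 5) / sin (Uu (3 / 5) (ww t)) ^ 2) t := by
  have h1 := (hasDeriv_Th s35.1 (ww t)).comp t (hasDeriv_ww t)
  refine h1.congr_deriv ?_
  have h2 := (DD_pos (Uu (3 / 5) (ww t))).ne'
  have h3 := sin_Uu_pos s35.1 s35.2 (ww t)
  rw [← sin_Uu_sq s35.1 s35.2]
  have e : 1 / sin (Uu (3 / 5) (ww t)) ^ 2 + 1 / 10 * (2 * sin (Uu (3 / 5) (ww t)) ^ 2 - 1) =
      41 / 40 * DD (Uu (3 / 5) (ww t)) / sin (Uu (3 / 5) (ww t)) ^ 2 := by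
    unfold DD
    field_simp
    try ring
  rw [e]
  field_simp

lemma rg_mem (t : ℝ) : 0 < rg t ∧ rg t < π := by
  obtain ⟨h1, h2⟩ := Uu_mem s35.1 s35.2 (ww t)
  constructor
  · rw [← RR_zero]; exact RR_mono h1
  · rw [← RR_pi]; exact RR_mono h2

lemma mm_rg (t : ℝ) : mm (rg t) = 40 / 41 * sin (Uu (3 / 5) (ww t)) := mm_RR _

lemma unit_speed (t : ℝ) : deriv rg t ^ 2 + mm (rg t) ^ 2 * deriv tg t ^ 2 = 1 := by
  rw [(hasDeriv_rg t).deriv, (hasDeriv_tg t).deriv, mm_rg]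
  have h3 := sin_Uu_pos s35.1 s35.2 (ww t)
  have h4 := sin_Uu_sq s35.1 s35.2 (ww t)
  have h5 := sin_sq_add_cos_sq (ww t)
  unfold ss at h4
  field_simp
  linear_combination (-25 : ℝ) * h4 - 9 * h5

lemma clairaut (t : ℝ) : mm (rg t) ^ 2 * deriv tg t = 24 / 41 := by
  rw [(hasDeriv_tg t).deriv, mm_rg]
  have h3 := sin_Uu_pos s35.1 s35.2 (ww t)
  field_simp
  norm_num

lemma geod_r (t : ℝ) : deriv (deriv rg) t = mm (rg t) * deriv mm (rg t) * deriv tg t ^ 2 := by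
  have h1 : deriv rg = fun t => -(4 / 5 * cos (ww t)) / sin (Uu (3 / 5) (ww t)) := by
    funext t; exact (hasDeriv_rg t).deriv
  have hU : HasDerivAt (fun t => Uu (3 / 5) (ww t))
      (-(kk (3 / 5) * cos (ww t)) / sin (Uu (3 / 5) (ww t)) * (1 / DD (Uu (3 / 5) (ww t)))) t :=
    (hasDeriv_Uu s35.1 s35.2 (ww t)).comp t (hasDeriv_ww t)
  have h3 := sin_Uu_pos s35.1 s35.2 (ww t)
  have h4 := sin_Uu_sq s35.1 s35.2 (ww t)
  have h5 := sin_sq_add_cos_sq (ww t)
  have h6 := cos_Uu s35.1 s35.2 (ww t)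
  have hDD := (DD_pos (Uu (3 / 5) (ww t))).ne'
  have h2 := (((hasDeriv_ww t).cos.const_mul (4 / 5)).neg.div hU.sin h3.ne')
  rw [h1]
  have h7 : HasDerivAt (fun t => -(4 / 5 * cos (ww t)) / sin (Uu (3 / 5) (ww t))) _ t := h2
  rw [h7.deriv, (hasDeriv_tg t).deriv, mm_rg, rg, deriv_mm_RR]
  unfold ss at h4
  rw [kk35] at *
  simp only [Pi.neg_apply]
  set c := cos (Uu (3 / 5) (ww t))
  set s := sin (Uu (3 / 5) (ww t))
  set C := cos (ww t)
  set S := sin (ww t)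
  set D := DD (Uu (3 / 5) (ww t))
  field_simp
  linear_combination (-25 * s ^ 2) * h6 + 25 * c * h4 + 9 * c * h5

/-! ### The comparison of lengths -/

lemma dTh_pos (w : ℝ) :
    27 / 50 ≤ 3 / 5 * (1 / ss (3 / 5) w + 1 / 10 * (2 * ss (3 / 5) w - 1)) := by
  have h1 := ss_pos s35.1 w
  have h2 : ss (3 / 5) w ≤ 1 := by
    unfold ss
    have := sin_sq_add_cos_sq w
    nlinarith [sq_nonneg (sin w)]
  have h3 : 1 ≤ 1 / ss (3 / 5) w := by
    rw [le_div_iff₀ h1]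
    linarith
  linarith

lemma Th_mono : StrictMono (Th (3 / 5)) :=
  strictMono_of_hasDerivAt_pos (hasDeriv_Th s35.1) (fun w => by linarith [dTh_pos w])

lemma exists_w : ∃ w, π - 3 / 8 < w ∧ w < π ∧ Th (3 / 5) w = π := by
  have hpi := pi_lt_four
  have hpi0 := pi_pos
  have h1 : π < Th (3 / 5) π := by
    rw [Th_pi]
    nlinarith
  have h2 : Th (3 / 5) (π - 3 / 8) < π := by
    -- mean value
    obtain ⟨c, hc, hc2⟩ := exists_hasDerivAt_eq_slope (Th (3 / 5)) _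
      (show π - 3 / 8 < π by linarith)
      (fun w _ => (hasDeriv_Th s35.1 w).continuousAt.continuousWithinAt)
      (fun w _ => hasDeriv_Th s35.1 w)
    have h3 := dTh_pos c
    rw [hc2, Th_pi] at h3
    rw [le_div_iff₀ (by linarith)] at h3
    nlinarith
  have hcont : Continuous (Th (3 / 5)) := contDiff_Th.continuous
  obtain ⟨w, hw, hw2⟩ := intermediate_value_Ioo (show π - 3 / 8 ≤ π by linarith)
    hcont.continuousOn (show π ∈ Ioo (Th (3 / 5) (π - 3 / 8)) (Th (3 / 5) π) from ⟨h2, h1⟩)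
  exact ⟨w, hw.1, hw.2, hw2⟩

lemma Uu_pi : Uu (3 / 5) π = π / 2 := by
  unfold Uu
  rw [sin_pi, mul_zero, arccos_zero]

lemma LL_pi : LL π = π * (258680 / 256250) := by
  unfold LL
  rw [sin_two_pi, show 4 * π = 2 * π + 2 * π by ring, sin_add, sin_two_pi]
  ring

lemma g_le {w : ℝ} (h0 : π - 3 / 8 ≤ w) (h1 : w ≤ π) :
    ss (3 / 5) w + 4 / 5 * cos w * sin (Uu (3 / 5) w) ≤ 13 / 50 := by
  have hs := sin_Uu_pos s35.1 s35.2 w
  have hs2 := sin_Uu_sq s35.1 s35.2 w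
  have hs1 := sin_le_one (Uu (3 / 5) w)
  have hc : cos w ≤ -(119 / 128) := by
    have h2 : cos w = - cos (π - w) := by rw [cos_pi_sub]; ring
    rw [h2]
    have h3 := one_sub_sq_div_two_le_cos (x := π - w)
    have h4 : (π - w) ^ 2 ≤ (3 / 8) ^ 2 := by
      apply sq_le_sq'
      · linarith
      · linarith
    nlinarith
  rw [← hs2]
  nlinarith

lemma length_ineq {w : ℝ} (h0 : π - 3 / 8 < w) (h1 : w < π) (h2 : Th (3 / 5) w = π) :
    π / 2 + RR (Uu (3 / 5) w) < LL w := by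
  set G : ℝ → ℝ := fun w => LL w - π / 2 - RR (Uu (3 / 5) w) -
    200 / 123 * (13 / 50) * Th (3 / 5) w with hG
  have hd : ∀ w, HasDerivAt G (DD (Uu (3 / 5) w) -
      DD (Uu (3 / 5) w) * (-(kk (3 / 5) * cos w) / sin (Uu (3 / 5) w)) -
      200 / 123 * (13 / 50) * (3 / 5 * (1 / ss (3 / 5) w + 1 / 10 * (2 * ss (3 / 5) w - 1)))) w := by
    intro w
    exact (((hasDeriv_LL w).sub_const (π / 2)).sub ((hasDeriv_RR _).comp w
      (hasDeriv_Uu s35.1 s35.2 w))).sub ((hasDeriv_Th s35.1 w).const_mul _)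
  have hanti : AntitoneOn G (Icc (π - 3 / 8) π) := by
    apply antitoneOn_of_deriv_nonpos (convex_Icc _ _)
    · exact fun w _ => (hd w).continuousAt.continuousWithinAt
    · exact fun w _ => (hd w).differentiableAt.differentiableWithinAt
    · intro w hw
      rw [interior_Icc] at hw
      rw [(hd w).deriv]
      have hg := g_le hw.1.le hw.2.le
      have hs := sin_Uu_pos s35.1 s35.2 w
      have hs2 := sin_Uu_sq s35.1 s35.2 w
      have hD := DD_pos (Uu (3 / 5) w)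
      have hss := ss_pos s35.1 w
      have e1 : 1 / ss (3 / 5) w + 1 / 10 * (2 * ss (3 / 5) w - 1) =
          41 / 40 * DD (Uu (3 / 5) w) / ss (3 / 5) w := by
        rw [← hs2]
        unfold DD
        field_simp
        try ring
      rw [e1, kk35]
      have e2 : DD (Uu (3 / 5) w) - DD (Uu (3 / 5) w) * (-(4 / 5 * cos w) / sin (Uu (3 / 5) w)) -
          200 / 123 * (13 / 50) * (3 / 5 * (41 / 40 * DD (Uu (3 / 5) w) / ss (3 / 5) w)) =
          DD (Uu (3 / 5) w) / ss (3 / 5) w *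
            (ss (3 / 5) w + 4 / 5 * cos w * sin (Uu (3 / 5) w) - 13 / 50) := by
        rw [← hs2]
        field_simp
        ring
      rw [e2]
      apply mul_nonpos_of_nonneg_of_nonpos (by positivity)
      linarith
  have h3 := hanti ⟨h0.le, h1.le⟩ ⟨by linarith, le_refl π⟩ h1.le
  simp only [hG] at h3
  rw [h2, Uu_pi, RR_pi_div_two, LL_pi, Th_pi] at h3
  have hpi0 := pi_pos
  nlinarith

end Pool.Agent.V11194.Rev
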