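import Mathlib

set_option autoImplicit false

/-! # Convex integration for the system `|f_u| = |f_v| = 1` in the plane -/

open Real Set Filter Topology

namespace Pool.Agent.V11194.Cheb

/-- `∂f/∂u` -/
noncomputable def du (f : ℝ × ℝ → ℂ) (x : ℝ × ℝ) : ℂ := fderiv ℝ f x (1, 0)
/-- `∂f/∂v` -/
noncomputable def dv (f : ℝ × ℝ → ℂ) (x : ℝ × ℝ) : ℂ := fderiv ℝ f x (0, 1)

/-- Doubly periodic functions. -/
def Per {α : Type*} (T : ℝ) (g : ℝ × ℝ → α) : Prop :=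
  (∀ x, g (x + (T, 0)) = g x) ∧ ∀ x, g (x + (0, T)) = g x

lemma Per.bdd {E : Type*} [NormedAddCommGroup E] {T : ℝ} (hT : 0 < T) {g : ℝ × ℝ → E}
    (hg : Continuous g) (hp : Per T g) : ∃ M, 0 < M ∧ ∀ x, ‖g x‖ ≤ M := by
  obtain ⟨M, hM⟩ := ((isCompact_Icc (a := (0 : ℝ)) (b := T)).prod
    (isCompact_Icc (a := (0 : ℝ)) (b := T))).exists_bound_of_continuousOn hg.continuousOn
  refine ⟨max M 1, by positivity, ?_⟩
  rintro ⟨u, v⟩
  have h1 : Function.Periodic (fun u => g (u, v)) T := by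
    intro u
    have := hp.1 (u, v)
    simpa using this
  obtain ⟨u', hu', e1⟩ := h1.exists_mem_Ico₀ hT u
  have h2 : Function.Periodic (fun v => g (u', v)) T := by
    intro v
    have := hp.2 (u', v)
    simpa using this
  obtain ⟨v', hv', e2⟩ := h2.exists_mem_Ico₀ hT v
  have e1' : g (u, v) = g (u', v) := e1
  have e2' : g (u', v) = g (u', v') := e2
  rw [e1', e2']
  exact (hM (u', v') ⟨⟨hu'.1, hu'.2.le⟩, ⟨hv'.1, hv'.2.le⟩⟩).trans (le_max_left _ _)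

lemma Per.pos {T : ℝ} (hT : 0 < T) {g : ℝ × ℝ → ℝ} (hg : Continuous g) (hp : Per T g)
    (h0 : ∀ x, 0 < g x) : ∃ m, 0 < m ∧ ∀ x, m ≤ g x := by
  have h1 : Continuous (fun x => (g x)⁻¹) := hg.inv₀ (fun x => (h0 x).ne')
  obtain ⟨M, hM0, hM⟩ := Per.bdd hT h1 ⟨fun x => by simp only [hp.1], fun x => by simp only [hp.2]⟩
  refine ⟨M⁻¹, inv_pos.2 hM0, fun x => ?_⟩
  have h2 := hM x
  rw [Real.norm_of_nonneg (inv_nonneg.2 (h0 x).le)] at h2
  exact inv_le_of_inv_le₀ (h0 x) h2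

lemma per_fderiv {T : ℝ} {g : ℝ × ℝ → ℂ} (hp : Per T g) : Per T (fderiv ℝ g) := by
  constructor
  · intro x
    rw [← fderiv_comp_add_right (x := x) (a := ((T, 0) : ℝ × ℝ))]
    congr 1
    funext y
    exact hp.1 y
  · intro x
    rw [← fderiv_comp_add_right (x := x) (a := ((0, T) : ℝ × ℝ))]
    congr 1
    funext y
    exact hp.2 y

/-- The basic oscillation. -/
noncomputable def osc (k : ℝ) (R : ℝ × ℝ → ℂ) (x : ℝ × ℝ) : ℂ := (k⁻¹ * sin (k * x.1)) • R x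

lemma hasFDeriv_osc {k : ℝ} (hk : k ≠ 0) {R : ℝ × ℝ → ℂ} {x : ℝ × ℝ}
    (hR : DifferentiableAt ℝ R x) :
    HasFDerivAt (osc k R) ((k⁻¹ * sin (k * x.1)) • fderiv ℝ R x +
      (cos (k * x.1) • ContinuousLinearMap.fst ℝ ℝ ℝ).smulRight (R x)) x := by
  have h1 : HasFDerivAt (fun x : ℝ × ℝ => k⁻¹ * sin (k * x.1))
      (cos (k * x.1) • ContinuousLinearMap.fst ℝ ℝ ℝ) x := by
    have h2 : HasFDerivAt (fun x : ℝ × ℝ => k * x.1) (k • ContinuousLinearMap.fst ℝ ℝ ℝ) x :=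
      (hasFDerivAt_fst (𝕜 := ℝ) (E := ℝ) (F := ℝ) (p := x)).const_mul k
    have h3 := (h2.sin.const_mul k⁻¹)
    refine h3.congr_fderiv ?_
    rw [smul_smul, smul_smul]
    congr 1
    field_simp
  exact h1.smul hR.hasFDerivAt

lemma du_osc {k : ℝ} (hk : k ≠ 0) {R : ℝ × ℝ → ℂ} {x : ℝ × ℝ} (hR : DifferentiableAt ℝ R x) :
    du (osc k R) x = (k⁻¹ * sin (k * x.1)) • du R x + cos (k * x.1) • R x := by
  unfold du
  rw [(hasFDeriv_osc hk hR).fderiv]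
  simp

lemma dv_osc {k : ℝ} (hk : k ≠ 0) {R : ℝ × ℝ → ℂ} {x : ℝ × ℝ} (hR : DifferentiableAt ℝ R x) :
    dv (osc k R) x = (k⁻¹ * sin (k * x.1)) • dv R x := by
  unfold dv
  rw [(hasFDeriv_osc hk hR).fderiv]
  simp

lemma contDiff_osc {k : ℝ} {R : ℝ × ℝ → ℂ} {n : WithTop ℕ∞} (hR : ContDiff ℝ n R) :
    ContDiff ℝ n (osc k R) := by
  unfold osc
  exact (contDiff_const.mul (contDiff_const.mul contDiff_fst).sin).smul hR

lemma per_osc {T : ℝ} {N : ℕ} {m : ℤ} (hT : T = 2 * π * m) {R : ℝ × ℝ → ℂ} (hR : Per T R) :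
    Per T (osc N R) := by
  constructor
  · intro x
    unfold osc
    rw [hR.1]
    congr 2
    have e : (N : ℝ) * (x + (T, 0)).1 = N * x.1 + ((N * m : ℤ) : ℝ) * (2 * π) := by
      rw [hT]
      push_cast
      simp only [Prod.fst_add]
      ring
    rw [e, sin_add_int_mul_two_pi]
  · intro x
    unfold osc
    rw [hR.2]
    simp

lemma norm_osc_le {k : ℝ} (hk : 0 < k) {M : ℝ} {z : ℂ} (hz : ‖z‖ ≤ M) (t : ℝ) :
    ‖(k⁻¹ * sin t) • z‖ ≤ M / k := by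
  rw [norm_smul, norm_mul, norm_inv, Real.norm_of_nonneg hk.le, Real.norm_eq_abs]
  have h1 := abs_sin_le_one t
  have h2 := norm_nonneg z
  have h3 := abs_nonneg (sin t)
  calc k⁻¹ * |sin t| * ‖z‖ ≤ k⁻¹ * 1 * M := by gcongr
    _ = M / k := by ring

lemma norm_W (A : ℂ) (s τ : ℝ) :
    ‖A + (cos τ • (s • (Complex.I * A)) + cos (2 * τ) • ((-(s ^ 2 / 4)) • A))‖ ^ 2 =
      ‖A‖ ^ 2 * (1 + s ^ 2 / 2 + s ^ 4 * cos (2 * τ) ^ 2 / 16) := by
  have e : A + (cos τ • (s • (Complex.I * A)) + cos (2 * τ) • ((-(s ^ 2 / 4)) • A)) =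
      A * (((1 - s ^ 2 / 4 * cos (2 * τ) : ℝ) : ℂ) + ((s * cos τ : ℝ) : ℂ) * Complex.I) := by
    simp only [Complex.real_smul]
    push_cast
    ring
  rw [e, norm_mul, mul_pow, ← Complex.normSq_eq_norm_sq (_ + _), Complex.normSq_add_mul_I]
  have h := cos_two_mul τ
  have h2 : cos τ ^ 2 = (1 + cos (2 * τ)) / 2 := by linarith
  congr 1
  rw [mul_pow, h2]
  ring

lemma du_add {f g : ℝ × ℝ → ℂ} {x : ℝ × ℝ} (hf : DifferentiableAt ℝ f x)
    (hg : DifferentiableAt ℝ g x) : du (fun x => f x + g x) x = du f x + du g x := by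
  unfold du
  rw [fderiv_fun_add hf hg]
  rfl

lemma dv_add {f g : ℝ × ℝ → ℂ} {x : ℝ × ℝ} (hf : DifferentiableAt ℝ f x)
    (hg : DifferentiableAt ℝ g x) : dv (fun x => f x + g x) x = dv f x + dv g x := by
  unfold dv
  rw [fderiv_fun_add hf hg]
  rfl

lemma norm_du_le (f : ℝ × ℝ → ℂ) (x : ℝ × ℝ) : ‖du f x‖ ≤ ‖fderiv ℝ f x‖ := by
  unfold du
  have h := (fderiv ℝ f x).le_opNorm (1, 0)
  have e : ‖((1, 0) : ℝ × ℝ)‖ = 1 := by simp [Prod.norm_def]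
  rwa [e, mul_one] at h

lemma norm_dv_le (f : ℝ × ℝ → ℂ) (x : ℝ × ℝ) : ‖dv f x‖ ≤ ‖fderiv ℝ f x‖ := by
  unfold dv
  have h := (fderiv ℝ f x).le_opNorm (0, 1)
  have e : ‖((0, 1) : ℝ × ℝ)‖ = 1 := by simp [Prod.norm_def]
  rwa [e, mul_one] at h

lemma contDiff_du {f : ℝ × ℝ → ℂ} (hf : ContDiff ℝ (⊤ : ℕ∞) f) : ContDiff ℝ (⊤ : ℕ∞) (du f) := by
  unfold du
  exact (hf.fderiv_right (m := (⊤ : ℕ∞)) (by simp)).clm_apply contDiff_const

/-- One corrugation in the direction of `u`. -/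
lemma step {T : ℝ} {m : ℤ} (hT : T = 2 * π * m) (hT0 : 0 < T) {f : ℝ × ℝ → ℂ}
    (hf : ContDiff ℝ (⊤ : ℕ∞) f) (hper : Per T (fderiv ℝ f)) {δ : ℝ} (hδ : δ ≤ 1 / 9)
    (hu : ∀ x, 0 < 1 - ‖du f x‖ ^ 2 ∧ 1 - ‖du f x‖ ^ 2 ≤ δ) {ε : ℝ} (hε : 0 < ε) :
    ∃ F : ℝ × ℝ → ℂ, ContDiff ℝ (⊤ : ℕ∞) F ∧ Per T (fderiv ℝ F) ∧ F 0 = f 0 ∧
      (∀ x, 0 < 1 - ‖du F x‖ ^ 2 ∧ 1 - ‖du F x‖ ^ 2 ≤ 2 / 3 * δ) ∧
      (∀ x, ‖du F x - du f x‖ ≤ 4 / 3 * √δ) ∧ ∀ x, ‖dv F x - dv f x‖ ≤ ε := by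
  set A := du f with hA
  have hAs : ContDiff ℝ (⊤ : ℕ∞) A := contDiff_du hf
  have hAp : Per T A := by
    constructor
    · intro x
      simp only [hA, du, hper.1]
    · intro x
      simp only [hA, du, hper.2]
  set s : ℝ × ℝ → ℝ := fun x => √(1 - ‖A x‖ ^ 2) with hs
  have hD : ContDiff ℝ (⊤ : ℕ∞) (fun x => 1 - ‖A x‖ ^ 2) := contDiff_const.sub (hAs.norm_sq ℝ)
  have hss : ContDiff ℝ (⊤ : ℕ∞) s := hD.sqrt (fun x => (hu x).1.ne')
  have hsq : ∀ x, s x ^ 2 = 1 - ‖A x‖ ^ 2 := fun x => sq_sqrt (hu x).1.le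
  have hs0 : ∀ x, 0 < s x := fun x => sqrt_pos.2 (hu x).1
  have hsδ : ∀ x, s x ≤ √δ := fun x => sqrt_le_sqrt (hu x).2
  obtain ⟨m0, hm0, hm⟩ := Per.pos hT0 hD.continuous
    ⟨fun x => by simp only [hAp.1], fun x => by simp only [hAp.2]⟩ (fun x => (hu x).1)
  set P : ℝ × ℝ → ℂ := fun x => s x • (Complex.I * A x) with hP
  set R : ℝ × ℝ → ℂ := fun x => (-(s x ^ 2 / 4)) • A x with hR
  have hPs : ContDiff ℝ (⊤ : ℕ∞) P := hss.smul (contDiff_const.mul hAs)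
  have hRs : ContDiff ℝ (⊤ : ℕ∞) R := ((hss.pow 2).div_const 4).neg.smul hAs
  have hsp : Per T s := ⟨fun x => by simp only [hs, hAp.1], fun x => by simp only [hs, hAp.2]⟩
  have hPp : Per T P :=
    ⟨fun x => by simp only [hP, hAp.1, hsp.1], fun x => by simp only [hP, hAp.2, hsp.2]⟩
  have hRp : Per T R :=
    ⟨fun x => by simp only [hR, hAp.1, hsp.1], fun x => by simp only [hR, hAp.2, hsp.2]⟩
  obtain ⟨M1, hM10, hM1⟩ := Per.bdd hT0 (hPs.continuous_fderiv (by simp)) (per_fderiv hPp)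
  obtain ⟨M2, hM20, hM2⟩ := Per.bdd hT0 (hRs.continuous_fderiv (by simp)) (per_fderiv hRp)
  set η := min (m0 / 64) ε with hη
  have hη0 : 0 < η := by positivity
  have hη1 : η ≤ m0 / 64 := min_le_left _ _
  have hη2 : η ≤ ε := min_le_right _ _
  obtain ⟨N, hN⟩ := exists_nat_gt ((M1 + M2) / η)
  have hN0 : (0 : ℝ) < N := lt_trans (by positivity) hN
  have hNN : (0 : ℝ) < ((2 * N : ℕ) : ℝ) := by push_cast; positivity
  have hb : M1 / N + M2 / ((2 * N : ℕ) : ℝ) ≤ η := by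
    have h1 : M2 / ((2 * N : ℕ) : ℝ) ≤ M2 / N := by
      apply div_le_div_of_nonneg_left hM20.le hN0
      push_cast
      linarith
    have h2 : M1 / N + M2 / N ≤ η := by
      rw [← add_div, div_le_iff₀ hN0]
      rw [div_lt_iff₀ hη0] at hN
      linarith
    linarith
  have dP : ∀ x, DifferentiableAt ℝ P x := fun x => hPs.differentiable (by simp) x
  have dR : ∀ x, DifferentiableAt ℝ R x := fun x => hRs.differentiable (by simp) x
  have dF : ∀ x, DifferentiableAt ℝ f x := fun x => hf.differentiable (by simp) x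
  have sO1 : ContDiff ℝ (⊤ : ℕ∞) (osc N P) := contDiff_osc hPs
  have sO2 : ContDiff ℝ (⊤ : ℕ∞) (osc ((2 * N : ℕ) : ℝ) R) := contDiff_osc hRs
  have dO1 : ∀ x, DifferentiableAt ℝ (osc N P) x := fun x => sO1.differentiable (by simp) x
  have dO2 : ∀ x, DifferentiableAt ℝ (osc ((2 * N : ℕ) : ℝ) R) x :=
    fun x => sO2.differentiable (by simp) x
  set F : ℝ × ℝ → ℂ := fun x => f x + (osc N P x + osc ((2 * N : ℕ) : ℝ) R x) with hF
  have hFs : ContDiff ℝ (⊤ : ℕ∞) F := hf.add (sO1.add sO2)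
  have hduF : ∀ x, du F x = A x + (((((N : ℝ))⁻¹ * sin (N * x.1)) • du P x +
      cos (N * x.1) • P x) + (((((2 * N : ℕ) : ℝ))⁻¹ * sin (((2 * N : ℕ) : ℝ) * x.1)) • du R x +
      cos (((2 * N : ℕ) : ℝ) * x.1) • R x)) := by
    intro x
    rw [hF, du_add (dF x) ((dO1 x).fun_add (dO2 x)), du_add (dO1 x) (dO2 x),
      du_osc hN0.ne' (dP x), du_osc hNN.ne' (dR x)]
  have hdvF : ∀ x, dv F x = dv f x + ((((N : ℝ))⁻¹ * sin (N * x.1)) • dv P x +
      ((((2 * N : ℕ) : ℝ))⁻¹ * sin (((2 * N : ℕ) : ℝ) * x.1)) • dv R x) := by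
    intro x
    rw [hF, dv_add (dF x) ((dO1 x).fun_add (dO2 x)), dv_add (dO1 x) (dO2 x),
      dv_osc hN0.ne' (dP x), dv_osc hNN.ne' (dR x)]
  have key : ∀ x, ∃ W : ℂ, ‖du F x - W‖ ≤ η ∧ ‖W‖ ^ 2 = ‖A x‖ ^ 2 * (1 + s x ^ 2 / 2 +
      s x ^ 4 * cos (2 * (N * x.1)) ^ 2 / 16) ∧ ‖W - A x‖ ≤ s x + s x ^ 2 / 4 := by
    intro x
    refine ⟨A x + (cos (N * x.1) • (s x • (Complex.I * A x)) +
      cos (2 * (N * x.1)) • ((-(s x ^ 2 / 4)) • A x)), ?_, norm_W _ _ _, ?_⟩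
    · rw [hduF]
      have e : ((2 * N : ℕ) : ℝ) * x.1 = 2 * (N * x.1) := by push_cast; ring
      have e2 : A x + (((((N : ℝ))⁻¹ * sin (N * x.1)) • du P x +
          cos (N * x.1) • P x) + (((((2 * N : ℕ) : ℝ))⁻¹ * sin (((2 * N : ℕ) : ℝ) * x.1)) • du R x +
          cos (((2 * N : ℕ) : ℝ) * x.1) • R x)) - (A x + (cos (N * x.1) • (s x • (Complex.I * A x)) +
          cos (2 * (N * x.1)) • ((-(s x ^ 2 / 4)) • A x))) =
          (((N : ℝ))⁻¹ * sin (N * x.1)) • du P x +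
          (((((2 * N : ℕ) : ℝ))⁻¹ * sin (((2 * N : ℕ) : ℝ) * x.1)) • du R x) := by
        rw [e]
        simp only [hP, hR]
        ring
      rw [e2]
      calc _ ≤ _ := norm_add_le _ _
        _ ≤ M1 / N + M2 / ((2 * N : ℕ) : ℝ) := add_le_add
          (norm_osc_le hN0 ((norm_du_le _ _).trans (hM1 x)) _)
          (norm_osc_le hNN ((norm_du_le _ _).trans (hM2 x)) _)
        _ ≤ η := hb
    · have hA1 : ‖A x‖ ≤ 1 := by
        have := (hu x).1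
        nlinarith [norm_nonneg (A x)]
      rw [add_sub_cancel_left]
      have b1 : ‖cos (N * x.1) • (s x • (Complex.I * A x))‖ ≤ s x := by
        rw [norm_smul, norm_smul, norm_mul, Complex.norm_I, one_mul, Real.norm_eq_abs,
          Real.norm_of_nonneg (hs0 x).le]
        have h1 := abs_cos_le_one (N * x.1)
        have h2 := abs_nonneg (cos (N * x.1))
        have h3 := norm_nonneg (A x)
        have h4 := hs0 x
        calc |cos (N * x.1)| * (s x * ‖A x‖) ≤ 1 * (s x * 1) := by gcongr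
          _ = s x := by ring
      have b2 : ‖cos (2 * (N * x.1)) • ((-(s x ^ 2 / 4)) • A x)‖ ≤ s x ^ 2 / 4 := by
        rw [norm_smul, norm_smul, norm_neg, Real.norm_eq_abs,
          Real.norm_of_nonneg (by positivity)]
        have h1 := abs_cos_le_one (2 * (N * x.1))
        have h2 := abs_nonneg (cos (2 * (N * x.1)))
        have h3 := norm_nonneg (A x)
        calc |cos (2 * (N * x.1))| * (s x ^ 2 / 4 * ‖A x‖) ≤ 1 * (s x ^ 2 / 4 * 1) := by gcongr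
          _ = s x ^ 2 / 4 := by ring
      exact (norm_add_le _ _).trans (add_le_add b1 b2)
  refine ⟨F, hFs, ?_, ?_, ?_, ?_, ?_⟩
  · -- periodicity
    have h1 : Per T (fun x => osc N P x + osc ((2 * N : ℕ) : ℝ) R x) := by
      have a1 := per_osc (N := N) hT hPp
      have a2 := per_osc (N := 2 * N) hT hRp
      exact ⟨fun x => by simp only [a1.1, a2.1], fun x => by simp only [a1.2, a2.2]⟩
    have h2 := per_fderiv h1
    have h3 : ∀ x, fderiv ℝ F x = fderiv ℝ f x +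
        fderiv ℝ (fun x => osc N P x + osc ((2 * N : ℕ) : ℝ) R x) x := by
      intro x
      rw [hF]
      exact fderiv_fun_add (dF x) ((dO1 x).add (dO2 x))
    exact ⟨fun x => by rw [h3, h3, hper.1, h2.1], fun x => by rw [h3, h3, hper.2, h2.2]⟩
  · simp [hF, osc]
  · intro x
    obtain ⟨W, h1, h2, _⟩ := key x
    have hq0 : 0 ≤ cos (2 * (N * x.1)) ^ 2 := by positivity
    have hq1 : cos (2 * (N * x.1)) ^ 2 ≤ 1 := cos_sq_le_one _
    set q := cos (2 * (N * x.1)) ^ 2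
    have hA2 : ‖A x‖ ^ 2 = 1 - s x ^ 2 := by rw [hsq]; ring
    rw [hA2] at h2
    have hd1 : m0 ≤ s x ^ 2 := by rw [hsq]; exact hm x
    have hd2 : s x ^ 2 ≤ δ := by rw [hsq]; exact (hu x).2
    set d := s x ^ 2 with hd
    have hs4 : s x ^ 4 = d ^ 2 := by rw [hd]; ring
    rw [hs4] at h2
    have hd0 : 0 < d := by linarith
    have hn1 : ‖du F x‖ ≤ ‖W‖ + η := by
      have := norm_add_le W (du F x - W)
      rw [add_sub_cancel] at this
      linarith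
    have hn2 : ‖W‖ ≤ ‖du F x‖ + η := by
      have := norm_sub_le (du F x) (du F x - W)
      rw [sub_sub_cancel] at this
      linarith
    have hW0 := norm_nonneg W
    have hF0 := norm_nonneg (du F x)
    have hdq0 : 0 ≤ d ^ 2 * q := by positivity
    have hdq1 : d ^ 2 * q ≤ d ^ 2 := by nlinarith [sq_nonneg d]
    have hW1 : ‖W‖ ^ 2 ≤ 1 - d / 2 := by
      rw [h2]
      nlinarith [mul_nonneg hd0.le hdq0]
    have hW2 : 1 - d / 2 - d ^ 2 / 2 ≤ ‖W‖ ^ 2 := by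
      rw [h2]
      nlinarith [mul_nonneg (by linarith : (0 : ℝ) ≤ 1 - d) hdq0]
    have hW3 : ‖W‖ ≤ 1 := by nlinarith
    have hd9 : d ≤ 1 / 9 := by linarith
    constructor
    · have : ‖du F x‖ ^ 2 ≤ (‖W‖ + η) ^ 2 := by gcongr
      nlinarith
    · have : ‖W‖ ^ 2 ≤ (‖du F x‖ + η) ^ 2 := by gcongr
      have hF1 : ‖du F x‖ ≤ 1 + η := by linarith
      nlinarith
  · intro x
    obtain ⟨W, h1, _, h3⟩ := key x
    have h4 : ‖du F x - A x‖ ≤ η + (s x + s x ^ 2 / 4) := by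
      have := norm_add_le (du F x - W) (W - A x)
      rw [sub_add_sub_cancel] at this
      linarith
    have hd1 : m0 ≤ s x ^ 2 := by rw [hsq]; exact hm x
    have hs1 := hsδ x
    have hs2 := hs0 x
    have hsd : √δ ≤ 1 / 3 := by
      rw [show (1 / 3 : ℝ) = √(1 / 9) by
        rw [show (1 / 9 : ℝ) = (1 / 3) ^ 2 by norm_num, sqrt_sq (by norm_num)]]
      exact sqrt_le_sqrt hδ
    nlinarith
  · intro x
    rw [hdvF, add_sub_cancel_left]
    calc _ ≤ _ := norm_add_le _ _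
      _ ≤ M1 / N + M2 / ((2 * N : ℕ) : ℝ) := add_le_add
          (norm_osc_le hN0 ((norm_dv_le _ _).trans (hM1 x)) _)
          (norm_osc_le hNN ((norm_dv_le _ _).trans (hM2 x)) _)
      _ ≤ ε := hb.trans hη2

end Pool.Agent.V11194.Cheb
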