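import Pool.Agent.Helper477.Sph.Lens2

set_option autoImplicit false

/-! # Computing with polynomials over the group ring of the integers mod 25 -/

namespace Pool.Agent.V11194

open Polynomial

/-- Addition of rows. -/
def addR : List ℤ → List ℤ → List ℤ
  | [], b => b
  | a, [] => a
  | x :: a, y :: b => (x + y) :: addR a b

/-- Evaluation of a row at `z`. -/
def evR (z : ℂ) : List ℤ → ℂ
  | [] => 0
  | a :: r => a + z * evR z r

theorem evR_addR (z : ℂ) (a b : List ℤ) : evR z (addR a b) = evR z a + evR z b := by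
  fun_induction addR a b with
  | case1 b => simp [evR]
  | case2 a h => simp [evR]
  | case3 x a y b ih => simp only [evR, ih]; push_cast; ring

theorem evR_append (z : ℂ) (a b : List ℤ) : evR z (a ++ b) = evR z a + z ^ a.length * evR z b := by
  induction a with
  | nil => simp [evR]
  | cons x a ih => simp only [List.cons_append, evR, ih, List.length_cons, pow_succ]; ring

theorem evR_replicate (z : ℂ) (k : ℕ) (r : List ℤ) :
    evR z (List.replicate k 0 ++ r) = z ^ k * evR z r := by
  rw [evR_append, List.length_replicate]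
  have : evR z (List.replicate k 0) = 0 := by
    induction k with
    | zero => simp [evR]
    | succ k ih => simp [List.replicate_succ, evR, ih]
  rw [this, zero_add]

theorem evR_neg (z : ℂ) (r : List ℤ) : evR z (r.map (fun a => -a)) = - evR z r := by
  induction r with
  | nil => simp [evR]
  | cons x a ih => simp only [List.map_cons, evR, ih]; push_cast; ring

/-- Reduction modulo `x^25 = 1`. -/
def foldR (r : List ℤ) : List ℤ := addR (r.take 25) (r.drop 25)

theorem evR_foldR {z : ℂ} (hz : z ^ 25 = 1) (r : List ℤ) : evR z (foldR r) = evR z r := by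
  unfold foldR
  rw [evR_addR]
  by_cases h : 25 ≤ r.length
  · conv_rhs => rw [← List.take_append_drop 25 r]
    rw [evR_append, List.length_take, min_eq_left h, hz, one_mul]
  · push Not at h
    rw [List.drop_eq_nil_of_le h.le, List.take_of_length_le h.le]
    simp [evR]

/-- Addition of polynomials with row coefficients. -/
def addP : List (List ℤ) → List (List ℤ) → List (List ℤ)
  | [], b => b
  | a, [] => a
  | x :: a, y :: b => addR x y :: addP a b

/-- Evaluation. -/
noncomputable def evP (z : ℂ) : List (List ℤ) → ℂ[X]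
  | [] => 0
  | r :: p => C (evR z r) + X * evP z p

theorem evP_addP (z : ℂ) (a b : List (List ℤ)) : evP z (addP a b) = evP z a + evP z b := by
  fun_induction addP a b with
  | case1 b => simp [evP]
  | case2 a h => simp [evP]
  | case3 x a y b ih => simp only [evP, ih, evR_addR, C_add]; ring

/-- The coefficient row of `-(x^c + x^(-c))` times a row. -/
def mulR (c : ℕ) (r : List ℤ) : List ℤ :=
  foldR ((addR (List.replicate c 0 ++ r) (List.replicate (25 - c) 0 ++ r)).map (fun a => -a))

/-- Multiplication by `1 - (x^c + x^(-c)) X + X^2`. -/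
def mulW (c : ℕ) (p : List (List ℤ)) : List (List ℤ) :=
  addP p (addP ([] :: p.map (mulR c)) ([] :: [] :: p))

theorem evR_mulR {z : ℂ} (hz : z ^ 25 = 1) (c : ℕ) (r : List ℤ) :
    evR z (mulR c r) = -(z ^ c + z ^ (25 - c)) * evR z r := by
  unfold mulR
  rw [evR_foldR hz, evR_neg, evR_addR, evR_replicate, evR_replicate]
  ring

theorem evP_map {z : ℂ} (hz : z ^ 25 = 1) (c : ℕ) (p : List (List ℤ)) :
    evP z (p.map (mulR c)) = C (-(z ^ c + z ^ (25 - c))) * evP z p := by
  induction p with
  | nil => simp [evP]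
  | cons r p ih => simp only [List.map_cons, evP, ih, evR_mulR hz, C_mul]; ring

theorem evP_mulW {z : ℂ} (hz : z ^ 25 = 1) (c : ℕ) (p : List (List ℤ)) :
    evP z (mulW c p) = (1 - C (z ^ c + z ^ (25 - c)) * X + X ^ 2) * evP z p := by
  unfold mulW
  rw [evP_addP, evP_addP]
  simp only [evP, evP_map hz, evR, C_0, zero_add, C_neg]
  ring

/-- The product of the factors `1 - (x^c + x^(-c)) X + X^2`. -/
def prodW (l : List ℕ) : List (List ℤ) := l.foldr mulW [[1]]

/-- `1 - (z^c + z^(25-c)) X + X^2` -/
noncomputable def W (z : ℂ) (c : ℕ) : ℂ[X] := 1 - C (z ^ c + z ^ (25 - c)) * X + X ^ 2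

theorem evP_prodW {z : ℂ} (hz : z ^ 25 = 1) (l : List ℕ) :
    evP z (prodW l) = (l.map (W z)).prod := by
  induction l with
  | nil => simp [prodW, evP, evR]
  | cons c l ih =>
    rw [List.map_cons, List.prod_cons, ← ih]
    exact evP_mulW hz c (prodW l)

/-- Ramanujan sum. -/
def ram (k : ℕ) : ℤ := if 25 ∣ k then 20 else if 5 ∣ k then -5 else 0

/-- Trace of a row. -/
def trR : ℕ → List ℤ → ℤ
  | _, [] => 0
  | k, a :: r => a * ram k + trR (k + 1) r

noncomputable def evT : List ℤ → ℂ[X]
  | [] => 0
  | a :: r => C (a : ℂ) + X * evT r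

theorem sum_evR {ι : Type*} (S : Finset ι) (z : ι → ℂ)
    (hz : ∀ k, ∑ i ∈ S, z i ^ k = ((ram k : ℤ) : ℂ)) (r : List ℤ) :
    ∀ k, ∑ i ∈ S, z i ^ k * evR (z i) r = ((trR k r : ℤ) : ℂ) := by
  induction r with
  | nil => intro k; simp [evR, trR]
  | cons a r ih =>
    intro k
    simp only [evR, trR]
    have h1 : ∀ i ∈ S, z i ^ k * ((a : ℂ) + z i * evR (z i) r) =
        (a : ℂ) * z i ^ k + z i ^ (k + 1) * evR (z i) r := fun i _ => by ring
    rw [Finset.sum_congr rfl h1, Finset.sum_add_distrib, ← Finset.mul_sum, hz, ih]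
    push_cast
    ring

theorem sum_evP {ι : Type*} (S : Finset ι) (z : ι → ℂ)
    (hz : ∀ k, ∑ i ∈ S, z i ^ k = ((ram k : ℤ) : ℂ)) (p : List (List ℤ)) :
    ∑ i ∈ S, evP (z i) p = evT (p.map (trR 0)) := by
  induction p with
  | nil => simp [evP, evT]
  | cons r p ih =>
    simp only [evP, List.map_cons, evT]
    rw [Finset.sum_add_distrib, ← Finset.mul_sum, ih, ← map_sum]
    congr 2
    have := sum_evR S z hz r 0
    simpa using this

/-- Complement of the first tuple in `3 t(25)`. -/
def cA : List ℕ := [2, 3, 6, 7, 7, 8, 8, 11, 11, 12, 12]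
/-- Complement of the second tuple in `3 t(25)`. -/
def cB : List ℕ := [2, 3, 6, 7, 8, 8, 8, 9, 11, 12, 12]

set_option maxRecDepth 100000 in
theorem key_comp : (prodW cA).map (trR 0) = (prodW cB).map (trR 0) := by
  decide +kernel

end Pool.Agent.V11194
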