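import Pool.Agent.Helper477.Sph.Lens2

set_option autoImplicit false

/-! # Monomial orthogonal matrices with rotation blocks -/

namespace Pool.Agent.V11194.Mono

open Pool.Agent.Helper477.Sph
open scoped Matrix

variable {q : ℕ} [NeZero q]

/-- Rotation by `2π t / q`. -/
noncomputable def R (t : ZMod q) : Matrix (Fin 2) (Fin 2) ℝ := rot (2 * Real.pi * t.val / q)

theorem rot_add_nat (x : ℝ) (m : ℕ) : rot (x + m * (2 * Real.pi)) = rot x := by
  unfold rot
  rw [Real.cos_add_nat_mul_two_pi, Real.sin_add_nat_mul_two_pi]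

theorem R_add (s t : ZMod q) : R (s + t) = R s * R t := by
  unfold R
  rw [rot_mul]
  have hq : (q : ℝ) ≠ 0 := by exact_mod_cast NeZero.ne q
  have h1 : s.val + t.val = (s + t).val + q * ((s.val + t.val) / q) := by
    rw [ZMod.val_add]
    exact (Nat.mod_add_div _ _).symm
  have h2 : (s.val : ℝ) + t.val = (s + t).val + q * (((s.val + t.val) / q : ℕ) : ℝ) := by
    exact_mod_cast h1
  have h3 : 2 * Real.pi * s.val / q + 2 * Real.pi * t.val / q =
      2 * Real.pi * (s + t).val / q + (((s.val + t.val) / q : ℕ) : ℝ) * (2 * Real.pi) := by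
    rw [← add_div, ← mul_add, h2]
    field_simp
  rw [h3, rot_add_nat]

theorem R_zero : R (0 : ZMod q) = 1 := by
  unfold R
  rw [ZMod.val_zero, Nat.cast_zero, mul_zero, zero_div, rot_zero]

theorem R_neg (t : ZMod q) : R (-t) = (R t)ᵀ := by
  have h1 : R (-t) * R t = 1 := by rw [← R_add, neg_add_cancel, R_zero]
  have h2 : R t * (R t)ᵀ = 1 := by
    unfold R
    rw [rot_t, rot_mul, add_neg_cancel, rot_zero]
  calc R (-t) = R (-t) * (R t * (R t)ᵀ) := by rw [h2, mul_one]
    _ = (R t)ᵀ := by rw [← mul_assoc, h1, one_mul]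

theorem cos_ne_one {t : ZMod q} (ht : t ≠ 0) : Real.cos (2 * Real.pi * t.val / q) ≠ 1 := by
  intro h
  have hq : (0 : ℝ) < q := by exact_mod_cast Nat.pos_of_ne_zero (NeZero.ne q)
  have hlt : (t.val : ℝ) < q := by exact_mod_cast t.val_lt
  have hpi := Real.pi_pos
  have h1 : 2 * Real.pi * t.val / q < 2 * Real.pi := by
    rw [div_lt_iff₀ hq]
    nlinarith
  have h2 : -(2 * Real.pi) < 2 * Real.pi * t.val / q := by
    have : 0 ≤ 2 * Real.pi * t.val / q := by positivity
    linarith
  rw [Real.cos_eq_one_iff_of_lt_of_lt h2 h1] at h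
  have h3 : (t.val : ℝ) = 0 := by
    rcases div_eq_zero_iff.1 h with h4 | h4
    · rcases mul_eq_zero.1 h4 with h5 | h5
      · exact absurd h5 (by positivity)
      · exact h5
    · exact absurd h4 hq.ne'
  have h4 : t.val = 0 := by exact_mod_cast h3
  exact ht ((ZMod.val_eq_zero t).1 h4)

/-- A rotation by a nonzero angle fixes only the origin. -/
theorem R_fix {t : ZMod q} (ht : t ≠ 0) (v : Fin 2 → ℝ) (hv : (R t).mulVec v = v) : v = 0 := by
  have hc := cos_ne_one ht
  set c := Real.cos (2 * Real.pi * t.val / q) with hcdef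
  set s := Real.sin (2 * Real.pi * t.val / q) with hsdef
  have hcs : c ^ 2 + s ^ 2 = 1 := Real.cos_sq_add_sin_sq _
  have h0 := congrFun hv 0
  have h1 := congrFun hv 1
  simp only [R, rot, Matrix.mulVec, dotProduct, Fin.sum_univ_two, Matrix.of_apply,
    Matrix.cons_val', Matrix.cons_val_zero, Matrix.cons_val_one, Matrix.cons_val_fin_one] at h0 h1
  rw [← hcdef, ← hsdef] at h0 h1
  have hne : 2 - 2 * c ≠ 0 := by
    intro h
    apply hc
    linarith
  have e0 : (2 - 2 * c) * v 0 = 0 := by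
    linear_combination (c - 1) * h0 + s * h1 - v 0 * hcs
  have e1 : (2 - 2 * c) * v 1 = 0 := by
    linear_combination (c - 1) * h1 - s * h0 - v 1 * hcs
  ext i
  fin_cases i
  · exact (mul_eq_zero.1 e0).resolve_left hne
  · exact (mul_eq_zero.1 e1).resolve_left hne

variable {ι : Type*} [Fintype ι] [DecidableEq ι]

/-- The monomial matrix: permutation `σ` of the planes followed by the rotations `t`. -/
noncomputable def Mon (t : ι → ZMod q) (σ : Equiv.Perm ι) : Matrix (ι × Fin 2) (ι × Fin 2) ℝ :=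
  fun x y => if x.1 = σ y.1 then R (t x.1) x.2 y.2 else 0

theorem Mon_mul (t t' : ι → ZMod q) (σ σ' : Equiv.Perm ι) :
    Mon t σ * Mon t' σ' = Mon (fun i => t i + t' (σ⁻¹ i)) (σ * σ') := by
  ext ⟨i, x⟩ ⟨k, z⟩
  rw [Matrix.mul_apply, Fintype.sum_prod_type]
  simp only [Mon, Equiv.Perm.mul_apply]
  rw [Finset.sum_eq_single (σ' k)]
  · by_cases h : i = σ (σ' k)
    · have h2 : σ⁻¹ i = σ' k := by rw [h]; simp
      rw [if_pos h]
      simp only [h, if_true]
      have h3 : σ⁻¹ (σ (σ' k)) = σ' k := by simp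
      rw [h3, R_add, Matrix.mul_apply]
    · rw [if_neg h]
      simp [h]
  · intro j _ hj
    simp [hj]
  · intro h
    exact absurd (Finset.mem_univ _) h

theorem Mon_one : Mon (fun _ : ι => (0 : ZMod q)) 1 = 1 := by
  ext ⟨i, x⟩ ⟨k, z⟩
  simp only [Mon, Equiv.Perm.one_apply, R_zero, Matrix.one_apply, Prod.mk.injEq]
  by_cases h : i = k
  · simp [h]
  · simp [h]

theorem Mon_transpose (t : ι → ZMod q) (σ : Equiv.Perm ι) :
    (Mon t σ)ᵀ = Mon (fun i => - t (σ i)) σ⁻¹ := by
  ext ⟨i, x⟩ ⟨k, z⟩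
  simp only [Mon, Matrix.transpose_apply, R_neg]
  by_cases h : k = σ i
  · subst h
    simp
  · have h2 : ¬ i = σ⁻¹ k := by
      intro h3
      apply h
      rw [h3]; simp
    rw [if_neg h, if_neg h2]

theorem Mon_mul_transpose (t : ι → ZMod q) (σ : Equiv.Perm ι) :
    Mon t σ * (Mon t σ)ᵀ = 1 := by
  rw [Mon_transpose, Mon_mul]
  have : (fun i => t i + -t (σ (σ⁻¹ i))) = fun _ => (0 : ZMod q) := by
    funext i
    simp
  rw [this, mul_inv_cancel, Mon_one]

theorem Mon_injective {t t' : ι → ZMod q} {σ σ' : Equiv.Perm ι} (h : Mon t σ = Mon t' σ') :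
    t = t' ∧ σ = σ' := by
  have hσ : σ = σ' := by
    ext k
    by_contra hne
    have h0 := fun x z => congrFun (congrFun h (σ k, x)) (k, z)
    simp only [Mon, if_true, if_neg hne] at h0
    have h1 : R (t (σ k)) = 0 := by
      ext x z
      exact h0 x z
    have h2 : R (t (σ k)) * (R (t (σ k)))ᵀ = 1 := by
      rw [← R_neg, ← R_add, add_neg_cancel, R_zero]
    rw [h1, zero_mul] at h2
    have := congrFun (congrFun h2 0) 0
    simp at this
  refine ⟨?_, hσ⟩
  subst hσ
  funext i
  have h0 := fun x z => congrFun (congrFun h (i, x)) (σ⁻¹ i, z)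
  have hi : i = σ (σ⁻¹ i) := by simp
  simp only [Mon, if_pos hi] at h0
  have h1 : R (t i) = R (t' i) := by
    ext x z
    exact h0 x z
  by_contra hne
  have h2 : R (t i - t' i) = 1 := by
    rw [sub_eq_add_neg, R_add, h1, ← R_add, add_neg_cancel, R_zero]
  have h3 := R_fix (sub_ne_zero.2 hne) (fun _ => 1) (by rw [h2, Matrix.one_mulVec])
  have := congrFun h3 0
  simp at this

theorem Mon_fix {t : ι → ZMod q} (ht : ∀ i, t i ≠ 0) (v : ι × Fin 2 → ℝ)
    (hv : (Mon t 1).mulVec v = v) : v = 0 := by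
  have h1 : ∀ i, (R (t i)).mulVec (fun x => v (i, x)) = fun x => v (i, x) := by
    intro i
    funext x
    have h2 := congrFun hv (i, x)
    rw [Matrix.mulVec, dotProduct, Fintype.sum_prod_type] at h2
    rw [Finset.sum_eq_single i] at h2
    · simpa [Mon, Matrix.mulVec, dotProduct] using h2
    · intro j _ hj
      simp [Mon, hj.symm]
    · intro h
      exact absurd (Finset.mem_univ _) h
  funext ⟨i, x⟩
  exact congrFun (R_fix (ht i) _ (h1 i)) x

end Pool.Agent.V11194.Mono
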