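import Mathlib

set_option autoImplicit false

/-! # The profile of the sphere of revolution -/

open Real Set Filter Topology

namespace Pool.Agent.V11194.Rev

/-- The coordinate change `r = R(u)`. -/
noncomputable def RR (u : ℝ) : ℝ := u - sin (2 * u) / 41 + sin (4 * u) / 164

/-- Its derivative. -/
noncomputable def DD (u : ℝ) : ℝ := 40 / 41 * (1 + 1 / 10 * (2 * sin u ^ 4 - sin u ^ 2))

lemma sin2 (u : ℝ) : HasDerivAt (fun u => sin (2 * u)) (2 * cos (2 * u)) u := by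
  have h1 : HasDerivAt (fun u : ℝ => 2 * u) 2 u := by
    simpa using (hasDerivAt_id u).const_mul 2
  refine h1.sin.congr_deriv ?_
  ring

lemma sin4 (u : ℝ) : HasDerivAt (fun u => sin (4 * u)) (4 * cos (4 * u)) u := by
  have h1 : HasDerivAt (fun u : ℝ => 4 * u) 4 u := by
    simpa using (hasDerivAt_id u).const_mul 4
  refine h1.sin.congr_deriv ?_
  ring

lemma cos2_eq (u : ℝ) : cos (2 * u) = 1 - 2 * sin u ^ 2 := by
  have h1 := cos_two_mul u
  have h2 := sin_sq_add_cos_sq u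
  rw [h1]
  linear_combination 2 * h2

lemma cos4_eq (u : ℝ) : cos (4 * u) = 2 * (1 - 2 * sin u ^ 2) ^ 2 - 1 := by
  have h1 := cos_two_mul (2 * u)
  rw [show 2 * (2 * u) = 4 * u by ring, cos2_eq] at h1
  exact h1

lemma hasDeriv_RR (u : ℝ) : HasDerivAt RR (DD u) u := by
  refine (((hasDerivAt_id u).sub ((sin2 u).div_const 41)).add ((sin4 u).div_const 164)).congr_deriv
    ?_
  rw [cos2_eq, cos4_eq]
  unfold DD
  ring

lemma DD_pos (u : ℝ) : 0 < DD u := by
  unfold DD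
  nlinarith [sq_nonneg (sin u ^ 2 - 1 / 4), sin_sq_le_one u]

lemma contDiff_RR : ContDiff ℝ (⊤ : ℕ∞) RR := by
  unfold RR
  fun_prop

/-- Construction of a smooth inverse. -/
lemma exists_inv (f f' : ℝ → ℝ) (hf : ContDiff ℝ (⊤ : ℕ∞) f) (hd : ∀ x, HasDerivAt f (f' x) x)
    (hpos : ∀ x, 0 < f' x) (C : ℝ) (c : ℝ) (hc : 0 < c) (hb : ∀ x, |f x - c * x| ≤ C) :
    ∃ g : ℝ → ℝ, ContDiff ℝ (⊤ : ℕ∞) g ∧ (∀ x, g (f x) = x) ∧ (∀ y, f (g y) = y) ∧
      StrictMono f := by
  have hmono : StrictMono f := strictMono_of_hasDerivAt_pos hd hpos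
  have hcont : Continuous f := hf.continuous
  have htop : Tendsto f atTop atTop := by
    have h1 : Tendsto (fun x => c * x - C) atTop atTop :=
      tendsto_atTop_add_const_right _ _ (Tendsto.const_mul_atTop hc tendsto_id)
    refine tendsto_atTop_mono (fun x => ?_) h1
    have := (abs_le.1 (hb x)).1
    linarith
  have hbot : Tendsto f atBot atBot := by
    have h1 : Tendsto (fun x => c * x + C) atBot atBot :=
      tendsto_atBot_add_const_right _ _ (Tendsto.const_mul_atBot hc tendsto_id)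
    refine tendsto_atBot_mono (fun x => ?_) h1
    have := (abs_le.1 (hb x)).2
    linarith
  have hsurj : Function.Surjective f := hcont.surjective htop hbot
  let e : ℝ ≃o ℝ := hmono.orderIsoOfSurjective f hsurj
  let h : ℝ ≃ₜ ℝ := e.toHomeomorph
  have hh : (h : ℝ → ℝ) = f := rfl
  refine ⟨h.symm, ?_, fun x => ?_, fun y => ?_, hmono⟩
  · exact h.contDiff_symm_deriv (f' := f') (fun x => (hpos x).ne') (fun x => hd x) hf
  · exact h.symm_apply_apply x
  · exact h.apply_symm_apply y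

lemma exists_uu : ∃ g : ℝ → ℝ, ContDiff ℝ (⊤ : ℕ∞) g ∧ (∀ x, g (RR x) = x) ∧
    (∀ y, RR (g y) = y) ∧ StrictMono RR := by
  refine exists_inv RR DD contDiff_RR hasDeriv_RR DD_pos 1 1 one_pos (fun x => ?_)
  unfold RR
  have h1 := abs_le.1 (abs_sin_le_one (2 * x))
  have h2 := abs_le.1 (abs_sin_le_one (4 * x))
  rw [abs_le]
  constructor <;> linarith

/-- The inverse of `RR`. -/
noncomputable def uu : ℝ → ℝ := exists_uu.choose

lemma contDiff_uu : ContDiff ℝ (⊤ : ℕ∞) uu := exists_uu.choose_spec.1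
lemma uu_RR (x : ℝ) : uu (RR x) = x := exists_uu.choose_spec.2.1 x
lemma RR_uu (x : ℝ) : RR (uu x) = x := exists_uu.choose_spec.2.2.1 x
lemma RR_mono : StrictMono RR := exists_uu.choose_spec.2.2.2

lemma uu_mono : StrictMono uu := by
  intro a b hab
  by_contra h
  push Not at h
  have := RR_mono.monotone h
  rw [RR_uu, RR_uu] at this
  linarith

lemma RR_zero : RR 0 = 0 := by simp [RR]
lemma RR_pi_div_two : RR (π / 2) = π / 2 := by
  unfold RR
  rw [show 2 * (π / 2) = π by ring, show 4 * (π / 2) = 2 * π by ring, sin_pi, sin_two_pi]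
  ring
lemma RR_pi : RR π = π := by
  unfold RR
  rw [sin_two_pi, show 4 * π = 2 * π + 2 * π by ring, sin_add, sin_two_pi]
  ring
lemma RR_neg (u : ℝ) : RR (-u) = - RR u := by
  unfold RR
  rw [mul_neg, mul_neg, sin_neg, sin_neg]
  ring
lemma RR_pi_sub (u : ℝ) : RR (π - u) = π - RR u := by
  unfold RR
  have h1 : sin (2 * (π - u)) = - sin (2 * u) := by
    rw [show 2 * (π - u) = 2 * π - 2 * u by ring, sin_two_pi_sub]
  have h2 : sin (4 * (π - u)) = - sin (4 * u) := by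
    rw [show 4 * (π - u) = 2 * π - (4 * u - 2 * π) by ring, sin_two_pi_sub, sin_sub_two_pi]
  rw [h1, h2]
  ring

lemma uu_eq {r u : ℝ} (h : RR u = r) : uu r = u := by rw [← h, uu_RR]

lemma uu_zero : uu 0 = 0 := uu_eq RR_zero
lemma uu_pi_div_two : uu (π / 2) = π / 2 := uu_eq RR_pi_div_two
lemma uu_pi : uu π = π := uu_eq RR_pi
lemma uu_neg (r : ℝ) : uu (-r) = - uu r := uu_eq (by rw [RR_neg, RR_uu])
lemma uu_pi_sub (r : ℝ) : uu (π - r) = π - uu r := uu_eq (by rw [RR_pi_sub, RR_uu])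

lemma hasDeriv_uu (r : ℝ) : HasDerivAt uu (1 / DD (uu r)) r := by
  have h1 : DifferentiableAt ℝ uu r := (contDiff_uu.differentiable (by simp)).differentiableAt
  have h2 : HasDerivAt (fun r => RR (uu r)) (DD (uu r) * deriv uu r) r :=
    (hasDeriv_RR (uu r)).comp r h1.hasDerivAt
  have h3 : (fun r => RR (uu r)) = fun r => r := by funext r; exact RR_uu r
  rw [h3] at h2
  have h4 := h2.unique (hasDerivAt_id r)
  have h5 : deriv uu r = 1 / DD (uu r) := by
    rw [eq_div_iff (DD_pos _).ne']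
    linarith
  rw [← h5]
  exact h1.hasDerivAt

/-- The profile function. -/
noncomputable def mm (r : ℝ) : ℝ := 40 / 41 * sin (uu r)

lemma contDiff_mm : ContDiff ℝ (⊤ : ℕ∞) mm := by
  unfold mm
  exact contDiff_const.mul (contDiff_sin.comp contDiff_uu)

lemma mm_RR (u : ℝ) : mm (RR u) = 40 / 41 * sin u := by
  unfold mm
  rw [uu_RR]

lemma hasDeriv_mm (r : ℝ) : HasDerivAt mm (40 / 41 * (cos (uu r) * (1 / DD (uu r)))) r :=
  ((hasDeriv_uu r).sin).const_mul (40 / 41)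

lemma deriv_mm_RR (u : ℝ) : deriv mm (RR u) = 40 / 41 * (cos u / DD u) := by
  rw [(hasDeriv_mm (RR u)).deriv, uu_RR]
  ring

lemma uu_mem {r : ℝ} (h0 : 0 < r) (h1 : r < π) : 0 < uu r ∧ uu r < π := by
  constructor
  · rw [← uu_zero]; exact uu_mono h0
  · rw [← uu_pi]; exact uu_mono h1

lemma mm_pos {r : ℝ} (h0 : 0 < r) (h1 : r < π) : 0 < mm r := by
  obtain ⟨h2, h3⟩ := uu_mem h0 h1
  unfold mm
  have := sin_pos_of_pos_of_lt_pi h2 h3
  positivity

lemma deriv_mm_pos {r : ℝ} (h0 : 0 < r) (h1 : r < π / 2) : 0 < deriv mm r := by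
  rw [(hasDeriv_mm r).deriv]
  have h2 : 0 < uu r := (uu_mem h0 (by linarith)).1
  have h3 : uu r < π / 2 := by rw [← uu_pi_div_two]; exact uu_mono h1
  have h4 : 0 < cos (uu r) := cos_pos_of_mem_Ioo ⟨by linarith, h3⟩
  have h5 := DD_pos (uu r)
  positivity

lemma deriv_mm_zero : deriv mm 0 = 1 := by
  rw [(hasDeriv_mm 0).deriv, uu_zero, cos_zero]
  unfold DD
  rw [sin_zero]
  norm_num

/-! ### The angle function -/

/-- `Θ_σ(ω)`. -/
noncomputable def Th (σ w : ℝ) : ℝ :=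
  w - arctan ((1 - σ) * (sin w * cos w) / (cos w ^ 2 + σ * sin w ^ 2)) +
    1 / 10 * σ * (σ ^ 2 * w + (1 - σ ^ 2) * (sin w * cos w))

/-- `s = sin² u` along the geodesic. -/
noncomputable def ss (σ w : ℝ) : ℝ := cos w ^ 2 + σ ^ 2 * sin w ^ 2

lemma ss_pos {σ : ℝ} (hσ : 0 < σ) (w : ℝ) : 0 < ss σ w := by
  unfold ss
  have h := sin_sq_add_cos_sq w
  have h1 := sq_nonneg (sin w)
  have h2 := sq_nonneg (cos w)
  by_cases hc : cos w ^ 2 = 0
  · have : sin w ^ 2 = 1 := by linarith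
    rw [hc, this]
    positivity
  · have : 0 < cos w ^ 2 := lt_of_le_of_ne h2 (Ne.symm hc)
    positivity

lemma hasDeriv_Th {σ : ℝ} (hσ : 0 < σ) (w : ℝ) :
    HasDerivAt (Th σ) (σ * (1 / ss σ w + 1 / 10 * (2 * ss σ w - 1))) w := by
  have hcs := sin_sq_add_cos_sq w
  have hD : 0 < cos w ^ 2 + σ * sin w ^ 2 := by
    have h1 := sq_nonneg (sin w)
    have h2 := sq_nonneg (cos w)
    by_cases hc : cos w ^ 2 = 0
    · have : sin w ^ 2 = 1 := by linarith
      rw [hc, this]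
      positivity
    · have : 0 < cos w ^ 2 := lt_of_le_of_ne h2 (Ne.symm hc)
      positivity
  have hs := hasDerivAt_sin w
  have hc := hasDerivAt_cos w
  have hsc : HasDerivAt (fun w => sin w * cos w) (cos w ^ 2 - sin w ^ 2) w := by
    refine (hs.mul hc).congr_deriv ?_
    ring
  have hN : HasDerivAt (fun w => (1 - σ) * (sin w * cos w)) ((1 - σ) * (cos w ^ 2 - sin w ^ 2)) w :=
    hsc.const_mul _
  have hD' : HasDerivAt (fun w => cos w ^ 2 + σ * sin w ^ 2) (-2 * (1 - σ) * (sin w * cos w)) w := by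
    refine ((hc.pow 2).add ((hs.pow 2).const_mul σ)).congr_deriv ?_
    push_cast
    ring
  have hq := (hN.div hD' hD.ne').arctan
  have hlin : HasDerivAt (fun w : ℝ => σ ^ 2 * w + (1 - σ ^ 2) * (sin w * cos w))
      (σ ^ 2 + (1 - σ ^ 2) * (cos w ^ 2 - sin w ^ 2)) w := by
    have h1 : HasDerivAt (fun w : ℝ => σ ^ 2 * w) (σ ^ 2) w := by
      simpa using (hasDerivAt_id w).const_mul (σ ^ 2)
    exact h1.add (hsc.const_mul _)
  refine (((hasDerivAt_id w).sub hq).add (hlin.const_mul (1 / 10 * σ))).congr_deriv ?_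
  have hss := ss_pos hσ w
  have hkey : (cos w ^ 2 + σ * sin w ^ 2) ^ 2 + ((1 - σ) * (sin w * cos w)) ^ 2 = ss σ w := by
    unfold ss
    linear_combination (cos w ^ 2 + σ ^ 2 * sin w ^ 2) * hcs
  have e1 : 1 + ((1 - σ) * (sin w * cos w) / (cos w ^ 2 + σ * sin w ^ 2)) ^ 2 =
      ss σ w / (cos w ^ 2 + σ * sin w ^ 2) ^ 2 := by
    rw [← hkey]
    field_simp
  simp only [Pi.div_apply]
  rw [e1]
  have e2 : 1 / (ss σ w / (cos w ^ 2 + σ * sin w ^ 2) ^ 2) *
      (((1 - σ) * (cos w ^ 2 - sin w ^ 2) * (cos w ^ 2 + σ * sin w ^ 2) -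
        (1 - σ) * (sin w * cos w) * (-2 * (1 - σ) * (sin w * cos w))) /
        (cos w ^ 2 + σ * sin w ^ 2) ^ 2) = (1 - σ) * (cos w ^ 2 - σ * sin w ^ 2) / ss σ w := by
    rw [one_div_div, div_mul_div_comm, mul_comm (ss σ w), mul_div_mul_left _ _ (by positivity)]
    congr 1
    linear_combination ((1 - σ) * (cos w ^ 2 - σ * sin w ^ 2)) * hcs
  rw [e2]
  have e3 : (1 : ℝ) - (1 - σ) * (cos w ^ 2 - σ * sin w ^ 2) / ss σ w = σ / ss σ w := by
    rw [eq_div_iff hss.ne', sub_mul, div_mul_cancel₀ _ hss.ne']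
    unfold ss
    linear_combination σ * hcs
  rw [e3]
  have e4 : σ ^ 2 + (1 - σ ^ 2) * (cos w ^ 2 - sin w ^ 2) = 2 * ss σ w - 1 := by
    unfold ss
    linear_combination (-1 - σ ^ 2) * hcs + 2 * hcs * 0 + (1 : ℝ) * hcs * 0
  rw [e4]
  ring

end Pool.Agent.V11194.Rev
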